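import Pool.Agent.Lib.MP_deb346_gt.Conic

set_option autoImplicit false

open Set Filter Topology

namespace Pool.Agent.Lib.MP_deb346_gt

variable {U V : Set (ℝ × ℝ)} {d : ℝ × ℝ → ℝ × ℝ → ℝ} {ε ρ : ℝ}

lemma qe_smul (c : ℝ) (k : Fin 6 → ℝ) (X : ℝ × ℝ) : qe (c • k) X = c * qe k X := by
  simp only [qe, Pi.smul_apply, smul_eq_mul]; ring

lemma continuous_qe : Continuous (fun p : (Fin 6 → ℝ) × (ℝ × ℝ) => qe p.1 p.2) := by
  unfold qe; fun_prop

lemma Loc.ev_mem (h : Loc U d ε) {X : ℝ × ℝ} (hX : X ∈ U) (u : ℝ × ℝ) (t0 : ℝ) {F : ℝ × ℝ}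
    (he : F + t0 • u = X) : ∀ᶠ t in 𝓝 t0, F + t • u ∈ U := by
  have hc : Continuous fun t : ℝ => F + t • u := by fun_prop
  exact hc.continuousAt.eventually_mem (by rw [he]; exact h.isOpen.mem_nhds hX)

lemma Good.circle_conic (h : Good U d ε V ρ) {F : ℝ × ℝ} (hF : F ∈ V) {r : ℝ} (hr : 0 < r)
    (hrρ : r ≤ ρ) : ∃ k : Fin 6 → ℝ, k ≠ 0 ∧ ∀ X ∈ U, d F X = r → qe k X = 0 := by
  have hFU := h.sub hF
  set G : ℝ → ℝ × ℝ := fun δ => F + δ • ((1, 0) : ℝ × ℝ) with hG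
  have tG : Tendsto G (𝓝[>] 0) (𝓝 F) := by
    have hc : Continuous G := by simp only [hG]; fun_prop
    have := hc.tendsto 0
    simp only [hG, zero_smul, add_zero] at this
    exact this.mono_left nhdsWithin_le_nhds
  have hex : ∀ δ : ℝ, ∃ k : Fin 6 → ℝ, ‖k‖ = 1 ∧ (0 < δ → G δ ∈ U → d F (G δ) / 2 < r →
      ∀ X ∈ U, d F X + d (G δ) X = 2 * r → qe k X = 0) := fun δ => by
    by_cases hc : 0 < δ ∧ G δ ∈ U ∧ d F (G δ) / 2 < r
    · obtain ⟨h1, h2, h3⟩ := hc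
      have hne : F ≠ G δ := by
        intro he
        have := congrArg Prod.fst he
        simp only [hG, Prod.fst_add, Prod.smul_fst, smul_eq_mul, mul_one] at this
        linarith
      obtain ⟨k, hk, hq⟩ := h.conic F hFU _ h2 hne r h3 (hrρ.trans_lt h.rlt)
      refine ⟨‖k‖⁻¹ • k, norm_smul_inv_norm hk, fun _ _ _ X hX he => ?_⟩
      rw [qe_smul, hq X hX he, mul_zero]
    · exact ⟨fun _ => 1, by simp, fun h1 h2 h3 => absurd ⟨h1, h2, h3⟩ hc⟩
  choose k hk1 hk2 using hex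
  set 𝒰 := Ultrafilter.of (𝓝[>] (0 : ℝ)) with h𝒰
  have hle : (𝒰 : Filter ℝ) ≤ 𝓝[>] 0 := Ultrafilter.of_le _
  obtain ⟨K, hK, hlim⟩ := (isCompact_sphere (0 : Fin 6 → ℝ) 1).ultrafilter_le_nhds' (𝒰.map k)
    (by rw [Ultrafilter.mem_map]; exact Filter.univ_mem' fun δ => by simpa using hk1 δ)
  have tk : Tendsto k 𝒰 (𝓝 K) := hlim
  refine ⟨K, fun h0 => by simp [h0] at hK, fun X hX hXr => ?_⟩
  by_contra hne
  set u := X - F with hu
  have hXu : F + (1 : ℝ) • u = X := by simp [hu]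
  have hu0 : u ≠ 0 := by
    intro h0
    rw [sub_eq_zero.1 h0, h.self hFU] at hXr
    linarith
  have hc : ContinuousAt (fun p : (Fin 6 → ℝ) × ℝ => qe p.1 (F + p.2 • u)) (K, 1) := by
    unfold qe; fun_prop
  have hev := hc.eventually_ne (y := 0) (by simpa only [hXu] using hne)
  rw [nhds_prod_eq, eventually_prod_iff] at hev
  obtain ⟨pa, hpa, pb, hpb, hab⟩ := hev
  obtain ⟨η, hη, hb⟩ := Metric.eventually_nhds_iff.1 (hpb.and (h.ev_mem hX u 1 hXu))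
  set θ := min (η / 2) (1 / 2) with hθ
  have θ0 : 0 < θ := lt_min (by linarith) (by norm_num)
  have θ1 : θ ≤ η / 2 := min_le_left _ _
  have θ2 : θ ≤ 1 / 2 := min_le_right _ _
  have hin : ∀ t ∈ Icc (1 - θ) (1 + θ), pb t ∧ F + t • u ∈ U := fun t ht =>
    hb (by rw [Real.dist_eq, abs_lt]; constructor <;> linarith [ht.1, ht.2])
  have m1 := (hin (1 - θ) ⟨le_rfl, by linarith⟩).2
  have m2 := (hin (1 + θ) ⟨by linarith, le_rfl⟩).2
  have l1 : d F (F + (1 - θ) • u) < r := by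
    rw [← hXr, ← hXu]
    exact h.ray_lt hu0 (by linarith) (by linarith) hFU (by rw [hXu]; exact hX)
  have l2 : r < d F (F + (1 + θ) • u) := by
    rw [← hXr, ← hXu]
    exact h.ray_lt hu0 (by linarith) (by linarith) hFU m2
  have e1 := (h.tendsto hFU m1 tG tendsto_const_nhds).eventually (gt_mem_nhds l1)
  have e2 := (h.tendsto hFU m2 tG tendsto_const_nhds).eventually (lt_mem_nhds l2)
  have e3 : ∀ᶠ δ in 𝓝[>] (0 : ℝ), G δ ∈ U := tG.eventually (h.isOpen.mem_nhds hFU)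
  have e4 : ∀ᶠ δ in 𝓝[>] (0 : ℝ), d F (G δ) < r := by
    have := h.tendsto hFU hFU tendsto_const_nhds tG
    rw [h.self hFU] at this
    exact this.eventually (gt_mem_nhds hr)
  obtain ⟨δ, ⟨⟨⟨⟨f1, f2⟩, f3⟩, f4⟩, f5⟩, f6⟩ :=
    (((((e1.and e2).and e3).and e4).and self_mem_nhdsWithin).filter_mono hle).and
      (tk.eventually hpa) |>.exists
  have hcont : ContinuousOn (fun t : ℝ => d F (F + t • u) + d (G δ) (F + t • u))
      (Icc (1 - θ) (1 + θ)) := (h.contOn_ray hFU m1 m2).add (h.contOn_ray f3 m1 m2)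
  obtain ⟨t, ht, e⟩ := intermediate_value_Icc (show 1 - θ ≤ 1 + θ by linarith) hcont
    (show 2 * r ∈ Icc _ _ from ⟨by linarith, by linarith⟩)
  exact hab f6 (hin t ht).1 (hk2 δ f5 f3 (by linarith [h.nonneg hFU f3]) _ (hin t ht).2 e)

/-- the circle of radius `r` about `F` is an ellipse -/
structure Circ (U : Set (ℝ × ℝ)) (d : ℝ × ℝ → ℝ × ℝ → ℝ) (F : ℝ × ℝ) (r : ℝ)
    (S : ℝ × ℝ × ℝ) (b : ℝ × ℝ) : Prop where
  pd : PD S
  eq : ∀ v, (F + v ∈ U ∧ d F (F + v) = r) ↔ bf S v v + 2 * dp b v = 1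
  lt : ∀ v, (F + v ∈ U ∧ d F (F + v) < r) ↔ bf S v v + 2 * dp b v < 1
  root : ∀ u : ℝ × ℝ, u ≠ 0 → ∃ t : ℝ, 0 < t ∧ t ^ 2 * bf S u u + 2 * t * dp b u = 1

lemma Good.exists_circ (h : Good U d ε V ρ) {F : ℝ × ℝ} (hF : F ∈ V) {r : ℝ} (hr : 0 < r)
    (hrρ : r ≤ ρ) : ∃ S b, Circ U d F r S b := by
  have hFU := h.sub hF
  obtain ⟨k, hk, hq⟩ := h.circle_conic hF hr hrρ
  have hray : ∀ u : ℝ × ℝ, u ≠ 0 → ∃ t : ℝ, 0 < t ∧ F + t • u ∈ {X | X ∈ U ∧ d F X = r} := by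
    intro u hu
    obtain ⟨T, hT, hTU, hT3⟩ := h.reach F hF u hu
    have h0 : F + (0 : ℝ) • u ∈ U := by simpa using hFU
    obtain ⟨t, ht, e⟩ := intermediate_value_Icc hT.le (h.contOn_ray hFU h0 hTU)
      (show r ∈ Icc _ _ from ⟨by simp [h.self hFU, hr.le], by linarith [h.rpos]⟩)
    refine ⟨t, lt_of_le_of_ne ht.1 fun h1 => ?_, convex_ray h.convex ht.1 ht.2 hFU hTU, e⟩
    rw [← h1] at e
    simp only [zero_smul, add_zero, h.self hFU] at e
    linarith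
  obtain ⟨S, b, hpd, hiff⟩ := conic_ray hk (fun X hX => hq X hX.1 hX.2) hray
  have hroot : ∀ u : ℝ × ℝ, u ≠ 0 → ∃ t : ℝ, 0 < t ∧ F + t • u ∈ U ∧ d F (F + t • u) = r ∧
      t ^ 2 * bf S u u + 2 * t * dp b u = 1 := fun u hu => by
    obtain ⟨t, ht, hm⟩ := hray u hu
    have := (hiff _).1 hm
    rw [bf_smul_left, bf_smul_right, dp_smul_right] at this
    exact ⟨t, ht, hm.1, hm.2, by linear_combination this⟩
  refine ⟨S, b, hpd, hiff, fun v => ?_, fun u hu => ?_⟩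
  · by_cases hv : v = 0
    · simp [hv, hFU, h.self hFU, hr, bf, dp]
    obtain ⟨t, ht, hm, hd, hq⟩ := hroot v hv
    have hα := hpd v hv
    have hfac : t * (bf S v v + 2 * dp b v - 1) = (1 - t) * (bf S v v * t + 1) := by
      linear_combination hq
    have hp : 0 < bf S v v * t + 1 := by positivity
    constructor
    · rintro ⟨h1, h2⟩
      have h3 : 1 < t := by
        by_contra hcon
        have := h.ray_le (x := F) (u := v) ht.le (not_lt.1 hcon) hFU (by simpa using h1)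
        rw [one_smul] at this
        linarith
      have h4 : (1 - t) * (bf S v v * t + 1) < 0 := mul_neg_of_neg_of_pos (by linarith) hp
      by_contra hcon
      have : 0 ≤ t * (bf S v v + 2 * dp b v - 1) := mul_nonneg ht.le (by linarith)
      linarith
    · intro h1
      have h2 : t * (bf S v v + 2 * dp b v - 1) < 0 := mul_neg_of_pos_of_neg ht (by linarith)
      have h3 : 1 < t := by
        by_contra hcon
        have : 0 ≤ (1 - t) * (bf S v v * t + 1) := mul_nonneg (by linarith) hp.le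
        linarith
      have h4 := convex_ray h.convex zero_le_one h3.le hFU hm
      have h5 := h.ray_lt hv zero_le_one h3 hFU hm
      rw [one_smul] at h4 h5
      exact ⟨h4, by linarith⟩
  · obtain ⟨t, ht, -, -, hq⟩ := hroot u hu
    exact ⟨t, ht, hq⟩

/-- `z` is a direction in which the distance from `F` decreases -/
def Desc (U : Set (ℝ × ℝ)) (d : ℝ × ℝ → ℝ × ℝ → ℝ) (F X z : ℝ × ℝ) : Prop :=
  ∃ t : ℝ, 0 < t ∧ X + t • z ∈ U ∧ d F (X + t • z) < d F X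

lemma Circ.step {F v : ℝ × ℝ} {r : ℝ} {S : ℝ × ℝ × ℝ} {b : ℝ × ℝ} (h : Circ U d F r S b)
    (hv : bf S v v + 2 * dp b v = 1) (z : ℝ × ℝ) (t : ℝ) :
    (F + v + t • z ∈ U ∧ d F (F + v + t • z) < d F (F + v)) ↔
      2 * t * (bf S v z + dp b z) + t ^ 2 * bf S z z < 0 := by
  rw [((h.eq v).2 hv).2, add_assoc, h.lt]
  simp only [bf_add_left, bf_add_right, bf_smul_left, bf_smul_right, dp_add_right, dp_smul_right,
    bf_comm S z v]
  constructor <;> intro h1 <;> nlinarith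

lemma Circ.desc_iff {F v : ℝ × ℝ} {r : ℝ} {S : ℝ × ℝ × ℝ} {b : ℝ × ℝ} (h : Circ U d F r S b)
    (hv : bf S v v + 2 * dp b v = 1) (z : ℝ × ℝ) :
    Desc U d F (F + v) z ↔ bf S v z + dp b z < 0 := by
  have hz := h.pd.nonneg z
  constructor
  · rintro ⟨t, ht, h1⟩
    have h2 := (h.step hv z t).1 h1
    by_contra hcon
    have : 0 ≤ 2 * t * (bf S v z + dp b z) + t ^ 2 * bf S z z := by
      have := not_lt.1 hcon
      positivity
    linarith
  · intro h1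
    have hp : 0 < bf S z z + 1 := by linarith
    refine ⟨-(bf S v z + dp b z) / (bf S z z + 1), div_pos (by linarith) hp, (h.step hv z _).2 ?_⟩
    set m := bf S v z + dp b z
    have e : 2 * (-m / (bf S z z + 1)) * m + (-m / (bf S z z + 1)) ^ 2 * bf S z z =
        -(m ^ 2 * (bf S z z + 2) / (bf S z z + 1) ^ 2) := by field_simp; ring
    rw [e]
    have : m ≠ 0 := h1.ne
    exact neg_neg_of_pos (by positivity)

lemma Circ.step_mono {F v : ℝ × ℝ} {r : ℝ} {S : ℝ × ℝ × ℝ} {b : ℝ × ℝ} (h : Circ U d F r S b)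
    (hv : bf S v v + 2 * dp b v = 1) {z : ℝ × ℝ} {t t' : ℝ} (ht' : 0 < t') (htt : t' ≤ t)
    (h1 : F + v + t • z ∈ U ∧ d F (F + v + t • z) < d F (F + v)) :
    F + v + t' • z ∈ U ∧ d F (F + v + t' • z) < d F (F + v) := by
  rw [h.step hv] at h1 ⊢
  have hz := h.pd.nonneg z
  have ht : 0 < t := by linarith
  have h2 : 2 * (bf S v z + dp b z) + t * bf S z z < 0 := by
    by_contra hcon
    have := mul_nonneg ht.le (not_lt.1 hcon)
    nlinarith
  have h3 : t' * bf S z z ≤ t * bf S z z := mul_le_mul_of_nonneg_right htt hz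
  have h4 : t' * (2 * (bf S v z + dp b z) + t' * bf S z z) < 0 :=
    mul_neg_of_pos_of_neg ht' (by linarith)
  nlinarith

lemma Good.circ_at (h : Good U d ε V ρ) {F X : ℝ × ℝ} (hF : F ∈ V) (hX : X ∈ V) (hne : F ≠ X) :
    ∃ S b, Circ U d F (d F X) S b ∧ bf S (X - F) (X - F) + 2 * dp b (X - F) = 1 := by
  obtain ⟨S, b, hc⟩ := h.exists_circ hF (h.pos _ (h.sub hF) _ (h.sub hX) hne)
    (h.small F hF X hX).le
  exact ⟨S, b, hc, (hc.eq _).1 (by simp [h.sub hX])⟩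

lemma Good.desc_half (h : Good U d ε V ρ) {F X : ℝ × ℝ} (hF : F ∈ V) (hX : X ∈ V) (hne : F ≠ X) :
    ∃ n : ℝ × ℝ, 0 < dp n (X - F) ∧ ∀ z, Desc U d F X z ↔ dp n z < 0 := by
  obtain ⟨S, b, hc, hv⟩ := h.circ_at hF hX hne
  refine ⟨(S.1 * (X - F).1 + S.2.1 * (X - F).2 + b.1, S.2.1 * (X - F).1 + S.2.2 * (X - F).2 + b.2),
    ?_, fun z => ?_⟩
  · have := hc.pd.nonneg (X - F)
    simp only [bf, dp] at *
    linarith
  · have := hc.desc_iff hv z
    rw [add_sub_cancel] at this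
    rw [this]
    simp only [bf, dp]
    constructor <;> intro h1 <;> linarith

lemma Good.desc_mono (h : Good U d ε V ρ) {F X z : ℝ × ℝ} (hF : F ∈ V) (hX : X ∈ V) (hne : F ≠ X)
    {t t' : ℝ} (ht' : 0 < t') (htt : t' ≤ t) (h1 : X + t • z ∈ U ∧ d F (X + t • z) < d F X) :
    X + t' • z ∈ U ∧ d F (X + t' • z) < d F X := by
  obtain ⟨S, b, hc, hv⟩ := h.circ_at hF hX hne
  have := hc.step_mono hv (z := z) ht' htt (by rw [add_sub_cancel]; exact h1)
  rwa [add_sub_cancel] at this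

lemma sub_ne {X u : ℝ × ℝ} (hu : u ≠ 0) {s : ℝ} (hs : s ≠ 0) : X - s • u ≠ X := by
  intro h
  rcases smul_eq_zero.1 (sub_eq_self.1 h) with h1 | h1
  · exact hs h1
  · exact hu h1

lemma half_eq {n n' : ℝ × ℝ} (hn : n ≠ 0) (h : ∀ z, dp n z < 0 → dp n' z < 0) (z : ℝ × ℝ) :
    dp n' z < 0 → dp n z < 0 := by
  obtain ⟨c, hc, e⟩ := half_le hn fun z hz => (h z hz).le
  rw [e, dp_smul_left]
  intro h1
  by_contra hcon
  have := mul_nonneg hc (not_lt.1 hcon)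
  linarith

lemma dp_ne {n v : ℝ × ℝ} (h : 0 < dp n v) : n ≠ 0 := by
  rintro rfl
  simp [dp] at h

lemma Good.desc_center (h : Good U d ε V ρ) {X u z : ℝ × ℝ} (hX : X ∈ V) (hu : u ≠ 0) {s t : ℝ}
    (hs : 0 < s) (ht : 0 < t) (hsV : X - s • u ∈ V) (htV : X - t • u ∈ V) :
    Desc U d (X - s • u) X z → Desc U d (X - t • u) X z := by
  have aux : ∀ s t : ℝ, 0 < s → s ≤ t → X - s • u ∈ V → X - t • u ∈ V → ∀ z,
      Desc U d (X - s • u) X z → Desc U d (X - t • u) X z := by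
    rintro s t hs hst hsV htV z ⟨τ, hτ, h1, h2⟩
    refine ⟨τ, hτ, h1, ?_⟩
    have a1 := h.tri _ (h.sub htV) _ (h.sub hsV) _ h1
    have a2 := h.addl (x := X) (u := u) (r := -t) (s := -s) (t := 0) (by linarith) (by linarith)
      (by simpa [sub_eq_add_neg] using h.sub htV) (by simpa using h.sub hX)
    simp only [neg_smul, ← sub_eq_add_neg, zero_smul, add_zero] at a2
    linarith
  rcases le_total s t with hst | hst
  · exact aux s t hs hst hsV htV z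
  · obtain ⟨n, hn, hiff⟩ := h.desc_half hsV hX (sub_ne hu hs.ne')
    obtain ⟨n', hn', hiff'⟩ := h.desc_half htV hX (sub_ne hu ht.ne')
    intro h1
    rw [hiff']
    exact half_eq (dp_ne hn') (fun z hz => (hiff z).1 (aux t s ht hst htV hsV z ((hiff' z).2 hz)))
      z ((hiff z).1 h1)

lemma Good.desc_opp (h : Good U d ε V ρ) {X u z : ℝ × ℝ} (hX : X ∈ V) (hu : u ≠ 0) {s t : ℝ}
    (hs : 0 < s) (ht : 0 < t) (hsV : X - s • u ∈ V) (htV : X - t • (-u) ∈ V) :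
    Desc U d (X - s • u) X z → Desc U d (X - t • (-u)) X (-z) := by
  obtain ⟨n, hn, hiff⟩ := h.desc_half hsV hX (sub_ne hu hs.ne')
  obtain ⟨n', hn', hiff'⟩ := h.desc_half htV hX (sub_ne (neg_ne_zero.2 hu) ht.ne')
  have hnot : ∀ z, dp n z < 0 → dp (-n') z ≤ 0 := fun z hz => by
    rw [dp_neg_left, neg_nonpos]
    by_contra hcon
    obtain ⟨t1, p1, q1⟩ := (hiff z).2 hz
    obtain ⟨t2, p2, q2⟩ := (hiff' z).2 (not_le.1 hcon)
    have m0 : 0 < min t1 t2 := lt_min p1 p2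
    obtain ⟨r1, r2⟩ := h.desc_mono hsV hX (sub_ne hu hs.ne') m0 (min_le_left _ _) q1
    obtain ⟨-, r3⟩ := h.desc_mono htV hX (sub_ne (neg_ne_zero.2 hu) ht.ne') m0
      (min_le_right _ _) q2
    have a1 := h.tri _ (h.sub hsV) _ r1 _ (h.sub htV)
    have a2 := h.addl (x := X) (u := u) (r := -s) (s := 0) (t := t) (by linarith) (by linarith)
      (by simpa [sub_eq_add_neg] using h.sub hsV) (by simpa using h.sub htV)
    simp only [neg_smul, ← sub_eq_add_neg, zero_smul, add_zero] at a2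
    have e : X - t • (-u) = X + t • u := by simp
    rw [h.symm _ r1 _ (h.sub htV)] at a1
    rw [← e, h.symm X (h.sub hX) _ (h.sub htV)] at a2
    linarith
  obtain ⟨c, hc, e⟩ := half_le (dp_ne hn) hnot
  have hc0 : c ≠ 0 := by
    rintro rfl
    rw [zero_smul, neg_eq_zero] at e
    exact dp_ne hn' e
  intro h1
  rw [hiff', dp_neg_right, ← dp_neg_left, e, dp_smul_left]
  exact mul_neg_of_pos_of_neg (lt_of_le_of_ne hc hc0.symm) ((hiff z).1 h1)

/-- descent directions for centres on the ray from `X` in direction `-u` -/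
def DescD (U : Set (ℝ × ℝ)) (d : ℝ × ℝ → ℝ × ℝ → ℝ) (V : Set (ℝ × ℝ)) (X u z : ℝ × ℝ) : Prop :=
  ∃ t : ℝ, 0 < t ∧ X - t • u ∈ V ∧ Desc U d (X - t • u) X z

lemma exists_back (hV : IsOpen V) {X : ℝ × ℝ} (hX : X ∈ V) (u : ℝ × ℝ) :
    ∃ t : ℝ, 0 < t ∧ X - t • u ∈ V := by
  have hc : Continuous fun t : ℝ => X - t • u := by fun_prop
  have h1 : ∀ᶠ t in 𝓝 (0 : ℝ), X - t • u ∈ V :=
    hc.continuousAt.eventually_mem (by simpa using hV.mem_nhds hX)
  obtain ⟨t, h2, h3⟩ := ((h1.filter_mono nhdsWithin_le_nhds).and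
    (self_mem_nhdsWithin (s := Ioi (0 : ℝ)))).exists
  exact ⟨t, h3, h2⟩

lemma Good.descD_iff (h : Good U d ε V ρ) {X u z : ℝ × ℝ} (hX : X ∈ V) (hu : u ≠ 0) {t : ℝ}
    (ht : 0 < t) (htV : X - t • u ∈ V) : DescD U d V X u z ↔ Desc U d (X - t • u) X z :=
  ⟨fun ⟨_, hs, hsV, h1⟩ => h.desc_center hX hu hs ht hsV htV h1, fun h1 => ⟨t, ht, htV, h1⟩⟩

lemma Good.descD_half (h : Good U d ε V ρ) {X u : ℝ × ℝ} (hX : X ∈ V) (hu : u ≠ 0) :
    ∃ n : ℝ × ℝ, 0 < dp n u ∧ ∀ z, DescD U d V X u z ↔ dp n z < 0 := by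
  obtain ⟨t, ht, htV⟩ := exists_back h.openV hX u
  obtain ⟨n, hn, hiff⟩ := h.desc_half htV hX (sub_ne hu ht.ne')
  rw [sub_sub_cancel, dp_smul_right] at hn
  exact ⟨n, (pos_iff_pos_of_mul_pos hn).1 ht, fun z => (h.descD_iff hX hu ht htV).trans (hiff z)⟩

lemma Good.descD_neg (h : Good U d ε V ρ) {X u z : ℝ × ℝ} (hX : X ∈ V) (hu : u ≠ 0)
    (h1 : DescD U d V X u z) : DescD U d V X (-u) (-z) := by
  obtain ⟨s, hs, hsV, h2⟩ := h1
  obtain ⟨t, ht, htV⟩ := exists_back h.openV hX (-u)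
  exact ⟨t, ht, htV, h.desc_opp hX hu hs ht hsV htV h2⟩

lemma Good.descD_open (h : Good U d ε V ρ) {P u z : ℝ × ℝ} (hP : P ∈ V)
    (h1 : DescD U d V P u z) {ι : Type*} {l : Filter ι} {f g : ι → ℝ × ℝ}
    (hf : Tendsto f l (𝓝 P)) (hg : Tendsto g l (𝓝 u)) :
    ∀ᶠ i in l, DescD U d V (f i) (g i) z := by
  obtain ⟨t, ht, htV, τ, hτ, h2, h3⟩ := h1
  have t1 : Tendsto (fun i => f i - t • g i) l (𝓝 (P - t • u)) := hf.sub (hg.const_smul t)
  have t2 : Tendsto (fun i => f i + τ • z) l (𝓝 (P + τ • z)) := hf.add_const _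
  have t3 := h.tendsto (h.sub htV) h2 t1 t2
  have t4 := h.tendsto (h.sub htV) (h.sub hP) t1 hf
  filter_upwards [t1.eventually (h.openV.mem_nhds htV), t2.eventually (h.isOpen.mem_nhds h2),
    t3.eventually_lt t4 h3] with i a1 a2 a3
  exact ⟨t, ht, a1, τ, hτ, a2, a3⟩

end Pool.Agent.Lib.MP_deb346_gt
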