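import Mathlib

set_option autoImplicit false

open Set Filter Topology

namespace Pool.Agent.Lib.MP_deb346_gt

/-- dot product -/
def dp (n z : ℝ × ℝ) : ℝ := n.1 * z.1 + n.2 * z.2

/-- symmetric bilinear form with matrix `(a, b; b, c)` -/
def bf (S : ℝ × ℝ × ℝ) (u v : ℝ × ℝ) : ℝ :=
  S.1 * u.1 * v.1 + S.2.1 * (u.1 * v.2 + u.2 * v.1) + S.2.2 * u.2 * v.2

/-- quadratic polynomial -/
def qe (k : Fin 6 → ℝ) (X : ℝ × ℝ) : ℝ :=
  k 0 * X.1 ^ 2 + k 1 * X.1 * X.2 + k 2 * X.2 ^ 2 + k 3 * X.1 + k 4 * X.2 + k 5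

/-- positive definiteness -/
def PD (S : ℝ × ℝ × ℝ) : Prop := ∀ u : ℝ × ℝ, u ≠ 0 → 0 < bf S u u

lemma bf_smul_left (S : ℝ × ℝ × ℝ) (t : ℝ) (u v : ℝ × ℝ) : bf S (t • u) v = t * bf S u v := by
  simp only [bf, Prod.smul_fst, Prod.smul_snd, smul_eq_mul]; ring

lemma bf_smul_right (S : ℝ × ℝ × ℝ) (t : ℝ) (u v : ℝ × ℝ) : bf S u (t • v) = t * bf S u v := by
  simp only [bf, Prod.smul_fst, Prod.smul_snd, smul_eq_mul]; ring

lemma bf_add_left (S : ℝ × ℝ × ℝ) (u w v : ℝ × ℝ) : bf S (u + w) v = bf S u v + bf S w v := by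
  simp only [bf, Prod.fst_add, Prod.snd_add]; ring

lemma bf_add_right (S : ℝ × ℝ × ℝ) (u w v : ℝ × ℝ) : bf S v (u + w) = bf S v u + bf S v w := by
  simp only [bf, Prod.fst_add, Prod.snd_add]; ring

lemma bf_neg_left (S : ℝ × ℝ × ℝ) (u v : ℝ × ℝ) : bf S (-u) v = - bf S u v := by
  simp only [bf, Prod.fst_neg, Prod.snd_neg]; ring

lemma bf_neg_right (S : ℝ × ℝ × ℝ) (u v : ℝ × ℝ) : bf S u (-v) = - bf S u v := by
  simp only [bf, Prod.fst_neg, Prod.snd_neg]; ring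

lemma bf_comm (S : ℝ × ℝ × ℝ) (u v : ℝ × ℝ) : bf S u v = bf S v u := by
  simp only [bf]; ring

lemma bf_smul (S : ℝ × ℝ × ℝ) (t : ℝ) (u v : ℝ × ℝ) : bf (t • S) u v = t * bf S u v := by
  simp only [bf, Prod.smul_fst, Prod.smul_snd, smul_eq_mul]; ring

lemma dp_smul_right (n : ℝ × ℝ) (t : ℝ) (v : ℝ × ℝ) : dp n (t • v) = t * dp n v := by
  simp only [dp, Prod.smul_fst, Prod.smul_snd, smul_eq_mul]; ring

lemma dp_smul_left (n : ℝ × ℝ) (t : ℝ) (v : ℝ × ℝ) : dp (t • n) v = t * dp n v := by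
  simp only [dp, Prod.smul_fst, Prod.smul_snd, smul_eq_mul]; ring

lemma dp_add_right (n u v : ℝ × ℝ) : dp n (u + v) = dp n u + dp n v := by
  simp only [dp, Prod.fst_add, Prod.snd_add]; ring

lemma dp_neg_right (n v : ℝ × ℝ) : dp n (-v) = - dp n v := by
  simp only [dp, Prod.fst_neg, Prod.snd_neg]; ring

lemma dp_neg_left (n v : ℝ × ℝ) : dp (-n) v = - dp n v := by
  simp only [dp, Prod.fst_neg, Prod.snd_neg]; ring

lemma sq_pos_of_ne {n : ℝ × ℝ} (hn : n ≠ 0) : 0 < n.1 ^ 2 + n.2 ^ 2 := by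
  by_contra hcon
  have h4 : n.1 = 0 := by nlinarith [sq_nonneg n.1, sq_nonneg n.2]
  have h5 : n.2 = 0 := by nlinarith [sq_nonneg n.1, sq_nonneg n.2]
  exact hn (Prod.ext h4 h5)

lemma half_le {n n' : ℝ × ℝ} (hn : n ≠ 0) (h : ∀ z, dp n z < 0 → dp n' z ≤ 0) :
    ∃ c : ℝ, 0 ≤ c ∧ n' = c • n := by
  have hp := sq_pos_of_ne hn
  have key : ∀ s : ℝ, s * (n'.2 * n.1 - n'.1 * n.2) ≤ n'.1 * n.1 + n'.2 * n.2 := fun s => by
    have := h (-s * n.2 - n.1, s * n.1 - n.2) (by simp only [dp]; nlinarith)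
    simp only [dp] at this
    linarith
  have h0 : n'.2 * n.1 - n'.1 * n.2 = 0 := by
    by_contra hne
    have := key ((n'.1 * n.1 + n'.2 * n.2 + 1) / (n'.2 * n.1 - n'.1 * n.2))
    rw [div_mul_cancel₀ _ hne] at this
    linarith
  have h1 := key 0
  refine ⟨(n'.1 * n.1 + n'.2 * n.2) / (n.1 ^ 2 + n.2 ^ 2), div_nonneg (by linarith) hp.le, ?_⟩
  have hp' := hp.ne'
  ext
  · simp only [Prod.smul_fst, smul_eq_mul]; field_simp; linear_combination (-n.2) * h0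
  · simp only [Prod.smul_snd, smul_eq_mul]; field_simp; linear_combination (n.1) * h0

lemma PD.facts {S : ℝ × ℝ × ℝ} (h : PD S) : 0 < S.1 ∧ 0 < S.2.2 ∧ 0 < S.1 * S.2.2 - S.2.1 ^ 2 := by
  have h1 : 0 < S.1 := by simpa [bf] using h (1, 0) (by simp)
  have h2 : 0 < S.2.2 := by simpa [bf] using h (0, 1) (by simp)
  refine ⟨h1, h2, ?_⟩
  have h3 := h (-S.2.1, S.1) (by simp [h1.ne'])
  simp only [bf] at h3
  have : 0 < S.1 * (S.1 * S.2.2 - S.2.1 ^ 2) := by linarith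
  exact (pos_iff_pos_of_mul_pos this).1 h1

lemma PD.nonneg {S : ℝ × ℝ × ℝ} (h : PD S) (u : ℝ × ℝ) : 0 ≤ bf S u u := by
  by_cases hu : u = 0
  · simp [hu, bf]
  · exact (h u hu).le

lemma conic_ray {O : ℝ × ℝ} {E : Set (ℝ × ℝ)} {k : Fin 6 → ℝ} (hk : k ≠ 0)
    (hE : ∀ X ∈ E, qe k X = 0) (hray : ∀ u : ℝ × ℝ, u ≠ 0 → ∃ t : ℝ, 0 < t ∧ O + t • u ∈ E) :
    ∃ (S : ℝ × ℝ × ℝ) (b : ℝ × ℝ), PD S ∧ ∀ v, O + v ∈ E ↔ bf S v v + 2 * dp b v = 1 := by
  set S0 : ℝ × ℝ × ℝ := (k 0, k 1 / 2, k 2) with hS0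
  set b0 : ℝ × ℝ := (k 0 * O.1 + k 1 * O.2 / 2 + k 3 / 2, k 1 * O.1 / 2 + k 2 * O.2 + k 4 / 2)
    with hb0
  have hexp : ∀ v : ℝ × ℝ, qe k (O + v) = qe k O + 2 * dp b0 v + bf S0 v v := fun v => by
    simp only [qe, dp, bf, hS0, hb0, Prod.fst_add, Prod.snd_add]; ring
  have htwo : ∀ u : ℝ × ℝ, u ≠ 0 → ∃ t t' : ℝ, 0 < t ∧ 0 < t' ∧
      qe k O + t * t' * bf S0 u u = 0 ∧ qe k O + 2 * t * dp b0 u + t ^ 2 * bf S0 u u = 0 := by
    intro u hu
    obtain ⟨t, ht, h1⟩ := hray u hu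
    obtain ⟨t', ht', h2⟩ := hray (-u) (neg_ne_zero.2 hu)
    have e1 := hE _ h1
    have e2 := hE _ h2
    rw [hexp, dp_smul_right, bf_smul_left, bf_smul_right] at e1 e2
    rw [dp_neg_right, bf_neg_left, bf_neg_right] at e2
    refine ⟨t, t', ht, ht', ?_, by linear_combination e1⟩
    apply mul_left_cancel₀ (show t + t' ≠ 0 by positivity)
    linear_combination t' * e1 + t * e2
  have hc0 : qe k O ≠ 0 := by
    intro h0
    have hz : ∀ u : ℝ × ℝ, u ≠ 0 → bf S0 u u = 0 ∧ dp b0 u = 0 := fun u hu => by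
      obtain ⟨t, t', ht, ht', e1, e2⟩ := htwo u hu
      rw [h0, zero_add] at e1 e2
      have a1 : bf S0 u u = 0 := (mul_eq_zero.1 e1).resolve_left (by positivity)
      rw [a1, mul_zero, add_zero] at e2
      exact ⟨a1, (mul_eq_zero.1 e2).resolve_left (by positivity)⟩
    obtain ⟨a1, a2⟩ := hz (1, 0) (by simp)
    obtain ⟨a3, a4⟩ := hz (0, 1) (by simp)
    obtain ⟨a5, -⟩ := hz (1, 1) (by simp)
    simp only [bf, dp, hS0, hb0, mul_one, mul_zero, add_zero, zero_add] at a1 a2 a3 a4 a5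
    have k1 : k 1 = 0 := by linarith
    rw [a1, k1] at a2
    rw [a3, k1] at a4
    have k3 : k 3 = 0 := by linarith
    have k4 : k 4 = 0 := by linarith
    simp only [qe, a1, a3, k1, k3, k4, zero_mul, zero_add] at h0
    apply hk
    funext i
    fin_cases i <;> simp [a1, a3, k1, k3, k4, h0]
  have hpd : PD ((-(qe k O)⁻¹) • S0) := fun u hu => by
    obtain ⟨t, t', ht, ht', e1, -⟩ := htwo u hu
    rw [bf_smul]
    have : t * t' * (-(qe k O)⁻¹ * bf S0 u u) = 1 := by field_simp; linarith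
    by_contra hcon
    have h2 : t * t' * (-(qe k O)⁻¹ * bf S0 u u) ≤ 0 :=
      mul_nonpos_of_nonneg_of_nonpos (by positivity) (not_lt.1 hcon)
    linarith
  have hfw : ∀ v, O + v ∈ E →
      bf ((-(qe k O)⁻¹) • S0) v v + 2 * dp ((-(qe k O)⁻¹) • b0) v = 1 := fun v hv => by
    have := hE _ hv
    rw [hexp] at this
    rw [bf_smul, dp_smul_left]
    field_simp
    linarith
  refine ⟨_, (-(qe k O)⁻¹) • b0, hpd, fun v => ⟨hfw v, fun h => ?_⟩⟩
  have hv : v ≠ 0 := by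
    rintro rfl
    simp [bf, dp] at h
  obtain ⟨t, ht, h1⟩ := hray v hv
  have h2 := hfw _ h1
  rw [dp_smul_right, bf_smul_left, bf_smul_right] at h2
  have h3 := hpd v hv
  have h4 : (t - 1) * (bf ((-(qe k O)⁻¹) • S0) v v * t + 1) = 0 := by
    linear_combination h2 - t * h
  have h5 : t = 1 := by
    rcases mul_eq_zero.1 h4 with h6 | h6
    · linarith
    · have : 0 < bf ((-(qe k O)⁻¹) • S0) v v * t + 1 := by positivity
      linarith
  rwa [h5, one_smul] at h1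

/-- local projective metric whose small ellipses lie on conics -/
structure Loc (U : Set (ℝ × ℝ)) (d : ℝ × ℝ → ℝ × ℝ → ℝ) (ε : ℝ) : Prop where
  isOpen : IsOpen U
  convex : Convex ℝ U
  symm : ∀ x ∈ U, ∀ y ∈ U, d x y = d y x
  pos : ∀ x ∈ U, ∀ y ∈ U, x ≠ y → 0 < d x y
  tri : ∀ x ∈ U, ∀ y ∈ U, ∀ z ∈ U, d x z ≤ d x y + d y z
  cont : ContinuousOn (fun p : (ℝ × ℝ) × (ℝ × ℝ) => d p.1 p.2) (U ×ˢ U)
  add : ∀ x ∈ U, ∀ z ∈ U, ∀ y ∈ segment ℝ x z, d x y + d y z = d x z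
  eps : 0 < ε
  conic : ∀ F ∈ U, ∀ G ∈ U, F ≠ G → ∀ a, d F G / 2 < a → a < ε →
    ∃ k : Fin 6 → ℝ, k ≠ 0 ∧ ∀ X ∈ U, d F X + d G X = 2 * a → qe k X = 0

variable {U V : Set (ℝ × ℝ)} {d : ℝ × ℝ → ℝ × ℝ → ℝ} {ε ρ : ℝ}

lemma mem_seg (x u : ℝ × ℝ) {r s t : ℝ} (hrs : r ≤ s) (hst : s ≤ t) :
    x + s • u ∈ segment ℝ (x + r • u) (x + t • u) := by
  rcases eq_or_lt_of_le (hrs.trans hst) with h | h
  · have : s = r := le_antisymm (h ▸ hst) hrs
    rw [this]; exact left_mem_segment _ _ _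
  · have hp : 0 < t - r := by linarith
    refine ⟨(t - s) / (t - r), (s - r) / (t - r), div_nonneg (by linarith) hp.le,
      div_nonneg (by linarith) hp.le, by field_simp; ring, ?_⟩
    ext
    · simp only [Prod.fst_add, Prod.smul_fst, smul_eq_mul]; field_simp; ring
    · simp only [Prod.snd_add, Prod.smul_snd, smul_eq_mul]; field_simp; ring

lemma convex_line {W : Set (ℝ × ℝ)} (hW : Convex ℝ W) {x u : ℝ × ℝ} {r s t : ℝ} (hrs : r ≤ s)
    (hst : s ≤ t) (hr : x + r • u ∈ W) (ht : x + t • u ∈ W) : x + s • u ∈ W :=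
  hW.segment_subset hr ht (mem_seg x u hrs hst)

lemma convex_ray {W : Set (ℝ × ℝ)} (hW : Convex ℝ W) {x u : ℝ × ℝ} {s t : ℝ} (hs : 0 ≤ s)
    (hst : s ≤ t) (hx : x ∈ W) (ht : x + t • u ∈ W) : x + s • u ∈ W :=
  convex_line hW hs hst (by simpa using hx) ht

lemma Loc.addl (h : Loc U d ε) {x u : ℝ × ℝ} {r s t : ℝ} (hrs : r ≤ s) (hst : s ≤ t)
    (hr : x + r • u ∈ U) (ht : x + t • u ∈ U) :
    d (x + r • u) (x + s • u) + d (x + s • u) (x + t • u) = d (x + r • u) (x + t • u) :=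
  h.add _ hr _ ht _ (mem_seg x u hrs hst)

lemma Loc.addr (h : Loc U d ε) {x u : ℝ × ℝ} {s t : ℝ} (hs : 0 ≤ s) (hst : s ≤ t)
    (hx : x ∈ U) (ht : x + t • u ∈ U) :
    d x (x + s • u) + d (x + s • u) (x + t • u) = d x (x + t • u) := by
  have := h.addl (x := x) (u := u) hs hst (by simpa using hx) ht
  simpa using this

lemma Loc.self (h : Loc U d ε) {x : ℝ × ℝ} (hx : x ∈ U) : d x x = 0 := by
  have := h.add x hx x hx x (left_mem_segment _ _ _)
  linarith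

lemma Loc.nonneg (h : Loc U d ε) {x y : ℝ × ℝ} (hx : x ∈ U) (hy : y ∈ U) : 0 ≤ d x y := by
  by_cases hxy : x = y
  · rw [hxy, h.self hy]
  · exact (h.pos x hx y hy hxy).le

lemma Loc.ray_lt (h : Loc U d ε) {x u : ℝ × ℝ} (hu : u ≠ 0) {s t : ℝ} (hs : 0 ≤ s) (hst : s < t)
    (hx : x ∈ U) (ht : x + t • u ∈ U) : d x (x + s • u) < d x (x + t • u) := by
  have h1 := h.addr hs hst.le hx ht
  have h2 : 0 < d (x + s • u) (x + t • u) := by
    refine h.pos _ (convex_ray h.convex hs hst.le hx ht) _ ht fun he => ?_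
    have h3 : (s - t) • u = 0 := by rw [sub_smul]; exact sub_eq_zero.2 (add_left_cancel he)
    rcases smul_eq_zero.1 h3 with h4 | h4
    · linarith
    · exact hu h4
  linarith

lemma Loc.ray_le (h : Loc U d ε) {x u : ℝ × ℝ} {s t : ℝ} (hs : 0 ≤ s) (hst : s ≤ t)
    (hx : x ∈ U) (ht : x + t • u ∈ U) : d x (x + s • u) ≤ d x (x + t • u) := by
  have h1 := h.addr hs hst hx ht
  have h2 := h.nonneg (convex_ray h.convex hs hst hx ht) ht
  linarith

lemma Loc.tendsto (h : Loc U d ε) {ι : Type*} {l : Filter ι} {f g : ι → ℝ × ℝ} {x y : ℝ × ℝ}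
    (hx : x ∈ U) (hy : y ∈ U) (hf : Tendsto f l (𝓝 x)) (hg : Tendsto g l (𝓝 y)) :
    Tendsto (fun i => d (f i) (g i)) l (𝓝 (d x y)) := by
  have h1 : ContinuousAt (fun p : (ℝ × ℝ) × (ℝ × ℝ) => d p.1 p.2) (x, y) :=
    h.cont.continuousAt ((h.isOpen.prod h.isOpen).mem_nhds ⟨hx, hy⟩)
  exact h1.tendsto.comp (hf.prodMk_nhds hg)

lemma Loc.contOn_ray (h : Loc U d ε) {F x u : ℝ × ℝ} (hF : F ∈ U) {a b : ℝ}
    (ha : x + a • u ∈ U) (hb : x + b • u ∈ U) :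
    ContinuousOn (fun t : ℝ => d F (x + t • u)) (Icc a b) := fun t ht =>
  (h.tendsto hF (convex_line h.convex ht.1 ht.2 ha hb) tendsto_const_nhds
    ((by fun_prop : Continuous fun t : ℝ => x + t • u).tendsto t)).mono_left nhdsWithin_le_nhds

/-- a small neighbourhood in which circles are compact -/
structure Good (U : Set (ℝ × ℝ)) (d : ℝ × ℝ → ℝ × ℝ → ℝ) (ε : ℝ) (V : Set (ℝ × ℝ)) (ρ : ℝ) :
    Prop extends Loc U d ε where
  openV : IsOpen V
  convV : Convex ℝ V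
  sub : V ⊆ U
  rpos : 0 < ρ
  rlt : ρ < ε
  small : ∀ F ∈ V, ∀ X ∈ V, d F X < ρ
  reach : ∀ F ∈ V, ∀ u : ℝ × ℝ, u ≠ 0 → ∃ T : ℝ, 0 < T ∧ F + T • u ∈ U ∧ 3 * ρ ≤ d F (F + T • u)

lemma Loc.exists_good (h : Loc U d ε) {P : ℝ × ℝ} (hP : P ∈ U) :
    ∃ V ρ, P ∈ V ∧ Good U d ε V ρ := by
  obtain ⟨R, hR, hRU⟩ := Metric.nhds_basis_closedBall.mem_iff.1 (h.isOpen.mem_nhds hP)
  have hsU : Metric.sphere P R ⊆ U := Metric.sphere_subset_closedBall.trans hRU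
  have hcont : ContinuousOn (fun X => d P X) U := fun X hX =>
    (h.tendsto hP hX tendsto_const_nhds tendsto_id).mono_left nhdsWithin_le_nhds
  obtain ⟨X0, hX0, hmin⟩ := (isCompact_sphere P R).exists_isMinOn
    (NormedSpace.sphere_nonempty.2 hR.le) (hcont.mono hsU)
  have hm : 0 < d P X0 := h.pos _ hP _ (hsU hX0) fun he => by
    rw [← he, Metric.mem_sphere, dist_self] at hX0; linarith
  set ρ := min (d P X0 / 4) (ε / 2) with hρ
  have ρpos : 0 < ρ := lt_min (by linarith) (by linarith [h.eps])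
  have ρ1 : ρ ≤ d P X0 / 4 := min_le_left _ _
  have ρ2 : ρ ≤ ε / 2 := min_le_right _ _
  have hev : ∀ᶠ X in 𝓝 P, d P X < ρ / 2 := by
    have := h.tendsto hP hP tendsto_const_nhds tendsto_id
    rw [h.self hP] at this
    exact this.eventually (gt_mem_nhds (by linarith))
  obtain ⟨η, hη, hb⟩ := Metric.eventually_nhds_iff_ball.1 (hev.and (Metric.ball_mem_nhds P hR))
  have hVU : Metric.ball P η ⊆ U := fun X hX =>
    hRU (Metric.ball_subset_closedBall (hb X hX).2)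
  refine ⟨Metric.ball P η, ρ, Metric.mem_ball_self hη,
    { h with
      openV := Metric.isOpen_ball, convV := convex_ball _ _, sub := hVU, rpos := ρpos,
      rlt := by linarith [h.eps], small := fun F hF X hX => ?_, reach := fun F hF u hu => ?_ }⟩
  · have := h.tri F (hVU hF) P hP X (hVU hX)
    rw [h.symm F (hVU hF) P hP] at this
    linarith [(hb F hF).1, (hb X hX).1]
  · have hc : Continuous fun t : ℝ => dist (F + t • u) P := by fun_prop
    have hF' : dist F P < R := (hb F hF).2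
    have hun : 0 < ‖u‖ := norm_pos_iff.2 hu
    have h0 : dist (F + (0 : ℝ) • u) P ≤ R := by simpa using hF'.le
    have h1 : R ≤ dist (F + (2 * R / ‖u‖) • u) P := by
      have a1 := dist_triangle_right (F + (2 * R / ‖u‖) • u) F P
      have a2 : dist (F + (2 * R / ‖u‖) • u) F = 2 * R := by
        rw [dist_eq_norm, add_sub_cancel_left, norm_smul, Real.norm_eq_abs,
          abs_of_pos (by positivity), div_mul_cancel₀ _ hun.ne']
      linarith
    obtain ⟨T, hT, e⟩ := intermediate_value_Icc (show (0 : ℝ) ≤ 2 * R / ‖u‖ by positivity)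
      hc.continuousOn ⟨h0, h1⟩
    have hTs : F + T • u ∈ Metric.sphere P R := e
    refine ⟨T, lt_of_le_of_ne hT.1 fun h0 => ?_, hsU hTs, ?_⟩
    · rw [← h0] at e
      simp only [zero_smul, add_zero] at e
      linarith
    · have a1 : d P X0 ≤ d P (F + T • u) := hmin hTs
      have a2 := h.tri P hP F (hVU hF) _ (hsU hTs)
      linarith [(hb F hF).1]

end Pool.Agent.Lib.MP_deb346_gt
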