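import Mathlib

set_option autoImplicit false

namespace Pool.Agent.Lib.MP_deb346_gt

/-- homogeneous coordinates `(x, y, 1)` of a point `(x, y)` of the affine plane -/
def hom (P : ℝ × ℝ) : Fin 3 → ℝ := ![P.1, P.2, 1]

/-- affine coordinates of a point given in homogeneous coordinates -/
noncomputable def aff (v : Fin 3 → ℝ) : ℝ × ℝ := (v 0 / v 2, v 1 / v 2)

/-- Euclidean distance -/
noncomputable def euc (p q : ℝ × ℝ) : ℝ := √((p.1 - q.1) ^ 2 + (p.2 - q.2) ^ 2)

/-- the open unit disc -/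
def disc : Set (ℝ × ℝ) := {p | p.1 ^ 2 + p.2 ^ 2 < 1}

/-- Cayley-Klein (Hilbert) distance of the unit disc -/
noncomputable def klein (p q : ℝ × ℝ) : ℝ :=
  Real.arcosh ((1 - (p.1 * q.1 + p.2 * q.2)) /
    √((1 - (p.1 ^ 2 + p.2 ^ 2)) * (1 - (q.1 ^ 2 + q.2 ^ 2))))

/-- angle between two vectors of Euclidean three-space -/
noncomputable def sph (v w : Fin 3 → ℝ) : ℝ :=
  Real.arccos (v ⬝ᵥ w / √((v ⬝ᵥ v) * (w ⬝ᵥ w)))

/-- angle between the lines spanned by two vectors of Euclidean three-space -/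
noncomputable def ell (v w : Fin 3 → ℝ) : ℝ :=
  Real.arccos (|v ⬝ᵥ w| / √((v ⬝ᵥ v) * (w ⬝ᵥ w)))

/-- For a metric space whose points have homogeneous coordinates `h`: every ellipse with
distinct foci and radius below some fixed bound lies on a conic. -/
def EllipsesOnConics {X : Type} [MetricSpace X] (h : X → Fin 3 → ℝ) : Prop :=
  ∃ ε : ℝ, 0 < ε ∧ ∀ F G : X, F ≠ G → ∀ a : ℝ, dist F G / 2 < a → a < ε →
    ∃ Q : QuadraticForm ℝ (Fin 3 → ℝ), Q ≠ 0 ∧
      ∀ x : X, dist F x + dist x G = 2 * a → Q (h x) = 0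

/-- In the coordinates `g` the metric is `c` times the Euclidean one; onto the plane if complete. -/
def EuclideanModel {X : Type} [MetricSpace X] (g : X → Fin 3 → ℝ) (c : ℝ) : Prop :=
  (∀ x, g x 2 ≠ 0) ∧ (∀ x y, dist x y = c * euc (aff (g x)) (aff (g y))) ∧
    (CompleteSpace X → Set.range (fun x => aff (g x)) = Set.univ)

/-- In the coordinates `g` the metric is `c` times the Cayley-Klein one; onto the disc if
complete. -/
def KleinModel {X : Type} [MetricSpace X] (g : X → Fin 3 → ℝ) (c : ℝ) : Prop :=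
  (∀ x, g x 2 ≠ 0 ∧ aff (g x) ∈ disc) ∧ (∀ x y, dist x y = c * klein (aff (g x)) (aff (g y))) ∧
    (CompleteSpace X → Set.range (fun x => aff (g x)) = disc)

/-- In the coordinates `g` the metric is `c` times the spherical one, and it is not complete. -/
def SphericalPiece {X : Type} [MetricSpace X] (g : X → Fin 3 → ℝ) (c : ℝ) : Prop :=
  (∀ x y, dist x y = c * sph (g x) (g y)) ∧ ¬ CompleteSpace X

end Pool.Agent.Lib.MP_deb346_gt
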