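import Pool.Agent.Lib.MP_deb346_gt.Affine

set_option autoImplicit false

open Set Filter Topology
open scoped LinearAlgebra.Projectivization

namespace Pool.Agent.Lib.MP_deb346_gt

/-- the affine chart -/
noncomputable def io (P : ℝ × ℝ) : ℙ ℝ (Fin 3 → ℝ) := Projectivization.mk ℝ (hom P) (hom_ne P)

lemma io_inj {P Q : ℝ × ℝ} (h : io P = io Q) : P = Q := by
  obtain ⟨a, ha⟩ := (Projectivization.mk_eq_mk_iff' ℝ _ _ _ _).1 h
  have a0 : a ≠ 0 := by
    rintro rfl
    exact hom_ne P (by simpa using ha.symm)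
  have := congrArg aff ha
  rwa [aff_smul a0, aff_hom, aff_hom, eq_comm] at this

lemma mk_eq_io {v : Fin 3 → ℝ} (hv : v ≠ 0) (h2 : v 2 ≠ 0) :
    Projectivization.mk ℝ v hv = io (aff v) :=
  (Projectivization.mk_eq_mk_iff' ℝ _ _ _ _).2 ⟨v 2, smul_hom_aff h2⟩

lemma dir_ne {e : ℝ × ℝ} (he : e ≠ 0) : dir e ≠ 0 := fun h =>
  he (Prod.ext (by simpa [dir] using congrFun h 0) (by simpa [dir] using congrFun h 1))

lemma ell_smul {α β : ℝ} (hα : α ≠ 0) (hβ : β ≠ 0) (v w : Fin 3 → ℝ) :
    ell (α • v) (β • w) = ell v w := by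
  simp only [ell, smul_dotProduct, dotProduct_smul, smul_eq_mul]
  rw [show α * (α * v ⬝ᵥ v) * (β * (β * w ⬝ᵥ w)) = (α * β) ^ 2 * (v ⬝ᵥ v * w ⬝ᵥ w) by ring,
    Real.sqrt_mul (sq_nonneg _), Real.sqrt_sq_eq_abs,
    show β * (α * v ⬝ᵥ w) = α * β * v ⬝ᵥ w by ring, abs_mul (α * β),
    mul_div_mul_left _ _ (abs_ne_zero.2 (mul_ne_zero hα hβ))]

lemma norm_sph {c : ℝ} (hc : 0 < c) (v w : Fin 3 → ℝ) :
    ‖((c * sph v w : ℝ) : AddCircle (c * Real.pi))‖ = c * ell v w := by
  have hL : 0 < c * Real.pi := by positivity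
  have e : ell v w = Real.arccos |v ⬝ᵥ w / √((v ⬝ᵥ v) * (w ⬝ᵥ w))| := by
    rw [ell, abs_div, abs_of_nonneg (Real.sqrt_nonneg _)]
  rw [e, sph]
  set y := v ⬝ᵥ w / √((v ⬝ᵥ v) * (w ⬝ᵥ w))
  have small : ∀ u : ℝ, 0 ≤ u → ‖((c * Real.arccos u : ℝ) : AddCircle (c * Real.pi))‖ =
      c * Real.arccos u := fun u hu => by
    have h0 : 0 ≤ c * Real.arccos u := mul_nonneg hc.le (Real.arccos_nonneg u)
    have h1 := Real.arccos_le_pi_div_two.2 hu
    rw [(AddCircle.norm_coe_eq_abs_iff _ hL.ne').2 (by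
      rw [abs_of_nonneg h0, abs_of_pos hL]; nlinarith), abs_of_nonneg h0]
  rcases le_total 0 y with hy | hy
  · rw [abs_of_nonneg hy, small y hy]
  · rw [abs_of_nonpos hy, ← small (-y) (by linarith), Real.arccos_neg,
      show c * (Real.pi - Real.arccos y) = -(c * Real.arccos y) + c * Real.pi by ring,
      AddCircle.coe_add_period, AddCircle.coe_neg, norm_neg]

lemma dense_chart (z : Fin 3 → ℝ) :
    Tendsto (fun s : ℝ => z + s • (![0, 0, 1] : Fin 3 → ℝ)) (𝓝[≠] 0) (𝓝 z) ∧
      ∀ᶠ s : ℝ in 𝓝[≠] 0, (z + s • (![0, 0, 1] : Fin 3 → ℝ)) 2 ≠ 0 := by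
  constructor
  · have : Continuous fun s : ℝ => z + s • (![0, 0, 1] : Fin 3 → ℝ) := by fun_prop
    simpa using (this.tendsto 0).mono_left nhdsWithin_le_nhds
  · filter_upwards [ev_ne (z 2) 1 one_ne_zero] with s hs
    simpa using hs

variable [MetricSpace (ℙ ℝ (Fin 3 → ℝ))] {L : ℝ}

lemma line_param (hL : 0 < L) (hio : Continuous io)
    (hline : ∀ W : Submodule ℝ (Fin 3 → ℝ), Module.finrank ℝ W = 2 →
      ∃ γ : AddCircle L → ℙ ℝ (Fin 3 → ℝ), Isometry γ ∧ range γ = {p | p.submodule ≤ W})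
    (x : ℝ × ℝ) {e : ℝ × ℝ} (he : e ≠ 0) :
    ∃ (θ : ℝ → ℝ) (a : ℝ), Continuous θ ∧ StrictMono θ ∧ range θ = Ioo a (a + L) ∧
      ∀ s t, dist (io (x + s • e)) (io (x + t • e)) = ‖((θ t - θ s : ℝ) : AddCircle L)‖ := by
  have : Fact (0 < L) := ⟨hL⟩
  have hli : LinearIndependent ℝ ![hom x, dir e] := LinearIndependent.pair_iff.2 fun s t h => by
    have h2 : s = 0 := by simpa [hom, dir] using congrFun h 2
    rw [h2, zero_smul, zero_add] at h
    exact ⟨h2, (smul_eq_zero.1 h).resolve_right (dir_ne he)⟩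
  obtain ⟨γ, hγ, hr⟩ := hline (Submodule.span ℝ {hom x, dir e}) (by
    have := finrank_span_eq_card hli
    rwa [Matrix.range_cons_cons_empty] at this)
  have mem : ∀ (v : Fin 3 → ℝ) (hv : v ≠ 0), Projectivization.mk ℝ v hv ∈ range γ ↔
      ∃ α β : ℝ, α • hom x + β • dir e = v := fun v hv => by
    rw [hr, mem_ofPred_eq, Projectivization.submodule_mk, Submodule.span_singleton_le_iff_mem,
      Submodule.mem_span_pair]
  obtain ⟨w, hw⟩ := (mem _ (dir_ne he)).2 ⟨0, 1, by simp⟩
  obtain ⟨a, rfl⟩ := QuotientAddGroup.mk_surjective w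
  have hex : ∀ t : ℝ, ∃ u, γ u = io (x + t • e) := fun t =>
    (mem _ _).2 ⟨1, t, by rw [hom_add, one_smul]⟩
  choose ψ hψ using hex
  have ψc : Continuous ψ := by
    rw [hγ.isEmbedding.isInducing.continuous_iff, show γ ∘ ψ = fun t => io (x + t • e) from
      funext hψ]
    exact hio.comp (by fun_prop)
  have ψne : ∀ t, ψ t ≠ (a : AddCircle L) := fun t h0 => by
    have h1 := hψ t
    rw [h0, hw] at h1
    obtain ⟨c, hc⟩ := (Projectivization.mk_eq_mk_iff' ℝ _ _ _ _).1 h1.symm
    simpa [hom, dir] using congrFun hc 2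
  set θ : ℝ → ℝ := fun t => AddCircle.equivIco L a (ψ t) with hθ
  have θψ : ∀ t, ((θ t : ℝ) : AddCircle L) = ψ t := fun t => AddCircle.coe_equivIco
  have θc : Continuous θ := continuous_iff_continuousAt.2 fun t =>
    continuous_subtype_val.continuousAt.comp
      ((AddCircle.continuousAt_equivIco L a (ψne t)).comp ψc.continuousAt)
  have θi : Function.Injective θ := fun s t h => by
    have h1 : io (x + s • e) = io (x + t • e) := by rw [← hψ, ← hψ, ← θψ, ← θψ, h]
    have h2 : (s - t) • e = 0 := by rw [sub_smul]; exact sub_eq_zero.2 (add_left_cancel (io_inj h1))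
    exact sub_eq_zero.1 ((smul_eq_zero.1 h2).resolve_right he)
  have θr : range θ = Ioo a (a + L) := by
    refine Subset.antisymm (range_subset_iff.2 fun t => ?_) fun u hu => ?_
    · have h1 := (AddCircle.equivIco L a (ψ t)).2
      exact ⟨lt_of_le_of_ne h1.1 fun h => ψne t (by rw [← θψ]; exact congrArg _ h.symm), h1.2⟩
    · obtain ⟨α, β, h1⟩ := (mem _ (γ u).rep_nonzero).1 (by
        rw [Projectivization.mk_rep]; exact mem_range_self _)
      have α0 : α ≠ 0 := by
        rintro rfl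
        have h2 : γ u = γ a := by
          rw [hw, ← (γ u).mk_rep]
          exact (Projectivization.mk_eq_mk_iff' ℝ _ _ _ _).2 ⟨β, by simpa using h1⟩
        have h3 := (AddCircle.coe_eq_coe_iff_of_mem_Ico (Ioo_subset_Ico_self hu)
          ⟨le_rfl, by linarith⟩).1 (hγ.injective h2)
        exact hu.1.ne' h3
      have h2 : γ u = γ (ψ (β / α)) := by
        rw [hψ, ← (γ u).mk_rep]
        refine (Projectivization.mk_eq_mk_iff' ℝ _ _ _ _).2 ⟨α, ?_⟩
        rw [hom_add, smul_add, smul_smul, mul_div_cancel₀ _ α0, h1]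
      refine ⟨β / α, ?_⟩
      simp only [hθ, ← hγ.injective h2]
      exact AddCircle.equivIco_coe_of_mem (Ioo_subset_Ico_self hu)
  have θd : ∀ s t, dist (io (x + s • e)) (io (x + t • e)) = ‖((θ t - θ s : ℝ) : AddCircle L)‖ :=
    fun s t => by
      rw [← hψ, ← hψ, hγ.dist_eq, dist_comm, dist_eq_norm, AddCircle.coe_sub, θψ, θψ]
  rcases θc.strictMono_of_inj θi with h | h
  · exact ⟨θ, a, θc, h, θr, θd⟩
  · refine ⟨fun t => -θ t, -a - L, θc.neg, h.neg, ?_, fun s t => ?_⟩
    · ext u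
      have : u ∈ range (fun t => -θ t) ↔ -u ∈ range θ :=
        ⟨fun ⟨t, ht⟩ => ⟨t, by simp [← ht]⟩, fun ⟨t, ht⟩ => ⟨t, by simp [ht]⟩⟩
      rw [this, θr, mem_Ioo, mem_Ioo]
      constructor <;> rintro ⟨h1, h2⟩ <;> constructor <;> linarith
    · rw [θd, show -θ t - -θ s = -(θ t - θ s) by ring, AddCircle.coe_neg, norm_neg]

omit [MetricSpace (ℙ ℝ (Fin 3 → ℝ))] in
lemma norm_short (hL : 0 < L) {u : ℝ} (h0 : 0 ≤ u) (h1 : u ≤ L / 2) :
    ‖((u : ℝ) : AddCircle L)‖ = u := by
  rw [(AddCircle.norm_coe_eq_abs_iff _ hL.ne').2 (by rwa [abs_of_nonneg h0, abs_of_pos hL]),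
    abs_of_nonneg h0]

theorem elliptic_case (hmk : Continuous fun v : {v : Fin 3 → ℝ // v ≠ 0} =>
      Projectivization.mk ℝ v.1 v.2) (hL : 0 < L)
    (hline : ∀ W : Submodule ℝ (Fin 3 → ℝ), Module.finrank ℝ W = 2 →
      ∃ γ : AddCircle L → ℙ ℝ (Fin 3 → ℝ), Isometry γ ∧ range γ = {p | p.submodule ≤ W})
    (hell : EllipsesOnConics fun p : ℙ ℝ (Fin 3 → ℝ) => p.rep) :
    ∃ (T : (Fin 3 → ℝ) ≃ₗ[ℝ] (Fin 3 → ℝ)) (c : ℝ), 0 < c ∧
      ∀ x y : ℙ ℝ (Fin 3 → ℝ), dist x y = c * ell (T x.rep) (T y.rep) := by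
  obtain ⟨ε, ε0, hε⟩ := hell
  have hio : Continuous io := hmk.comp (continuous_hom.subtype_mk hom_ne)
  have dc : Continuous fun p : (ℝ × ℝ) × (ℝ × ℝ) => dist (io p.1) (io p.2) :=
    (hio.comp continuous_fst).dist (hio.comp continuous_snd)
  have hloc : LocLoc univ fun P Q => dist (io P) (io Q) := fun P _ => by
    have e1 : ∀ᶠ X in 𝓝 P, dist (io P) (io X) < L / 4 :=
      ((continuous_const.dist hio).tendsto P).eventually (gt_mem_nhds (by simpa using hL))
    obtain ⟨R, R0, hR⟩ := Metric.eventually_nhds_iff_ball.1 e1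
    refine ⟨Metric.ball P R, ε, Metric.mem_ball_self R0,
      { isOpen := Metric.isOpen_ball
        convex := convex_ball _ _
        symm := fun _ _ _ _ => dist_comm _ _
        pos := fun p _ q _ hne => dist_pos.2 fun h => hne (io_inj h)
        tri := fun _ _ _ _ _ _ => dist_triangle _ _ _
        cont := dc.continuousOn
        add := fun x hx z hz y hy => ?_
        eps := ε0
        conic := fun F _ G _ hne a h1 h2 => ?_ }⟩
    · by_cases hxz : z = x
      · rw [hxz, segment_same] at hy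
        rw [hxz, mem_singleton_iff.1 hy]
        simp
      obtain ⟨θ, a, θc, θm, -, θd⟩ := line_param hL hio hline x (sub_ne_zero.2 hxz)
      rw [segment_eq_image'] at hy
      obtain ⟨s, hs, rfl⟩ := hy
      have h0 : x + (0 : ℝ) • (z - x) = x := by simp
      have h1 : x + (1 : ℝ) • (z - x) = z := by simp
      have sh : θ 1 - θ 0 ≤ L / 2 := by
        by_contra hcon
        obtain ⟨t, ht, e⟩ := intermediate_value_Icc zero_le_one
          (θc.sub (continuous_const (y := θ 0))).continuousOn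
          (show L / 2 ∈ Icc _ _ from ⟨by simpa using (half_pos hL).le, (not_le.1 hcon).le⟩)
        have a1 := θd 0 t
        have a2 : θ t - θ 0 = L / 2 := e
        rw [a2, norm_short hL (half_pos hL).le le_rfl, h0] at a1
        have a3 := dist_triangle_left (io x) (io (x + t • (z - x))) (io P)
        have a4 := hR _ (convex_line (convex_ball P R) ht.1 ht.2 (h0.symm ▸ hx) (h1.symm ▸ hz))
        linarith [hR x hx]
      have m1 := θm.monotone hs.1
      have m2 := θm.monotone hs.2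
      have b1 := θd 0 s
      have b2 := θd s 1
      have b3 := θd 0 1
      rw [norm_short hL (by linarith) (by linarith)] at b1 b2 b3
      rw [h0] at b1 b3
      rw [h1] at b2 b3
      linarith
    · obtain ⟨Q, hQ, hq⟩ := hε (io F) (io G) (fun h => hne (io_inj h)) a h1 h2
      obtain ⟨k, hk, e⟩ := conic_coeffs hQ
      refine ⟨k, hk, fun X _ h3 => ?_⟩
      have h4 := hq (io X) (by rw [dist_comm (io X)]; exact h3)
      obtain ⟨u, hu⟩ := Projectivization.exists_smul_eq_mk_rep ℝ (hom X) (hom_ne X)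
      simp only [io, ← hu, Units.smul_def, QuadraticMap.map_smul, smul_eq_mul] at h4
      rw [← e]
      exact (mul_eq_zero.1 h4).resolve_left (mul_ne_zero u.ne_zero u.ne_zero)
  obtain ⟨T, κ, c, hκ, c0, hs⟩ := model isOpen_univ convex_univ univ_nonempty hloc
  have cT : Continuous T := T.toLinearMap.continuous_of_finiteDimensional
  have glob : ∀ (x e : ℝ × ℝ), e ≠ 0 → ∀ g : ℝ → ℝ, (∀ t, HasDerivAt g
      (√(Wk κ (T (hom x)) (T (dir e))) /
        Bk κ (T (hom x) + t • T (dir e)) (T (hom x) + t • T (dir e))) t) →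
      ∃ a k : ℝ, range (fun t => k + c * g t) = Ioo a (a + L) ∧ ∀ s t,
        dist (io (x + s • e)) (io (x + t • e)) = ‖((c * (g t - g s) : ℝ) : AddCircle L)‖ := by
    intro x e he g hg
    obtain ⟨θ, a, θc, θm, θr, θd⟩ := line_param hL hio hline x he
    have key : ∀ s t, s ≤ t → θ t = θ s - c * g s + c * g t := fun s t hst =>
      eq_of_has_deriv_right_eq (f := θ) (g := fun t => θ s - c * g s + c * g t) (a := s) (b := t)
        (fun u _ => deriv_right_of (g := fun y => dist (io (x + u • e)) (io (x + u • e + y • e)))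
          (by
            have cc : Continuous fun y : ℝ => θ (u + y) - θ u := by fun_prop
            filter_upwards [self_mem_nhdsWithin, nhdsWithin_le_nhds ((cc.tendsto 0).eventually
              (ge_mem_nhds (show θ (u + 0) - θ u < L / 2 by simpa using hL)))] with y a1 a2
            have y0 : (0 : ℝ) < y := a1
            rw [add_assoc, ← add_smul, θd,
              norm_short hL (sub_nonneg.2 (θm.monotone (by linarith))) a2])
          (by
            have := ((hs (x + u • e) (mem_univ _)).2 e he).2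
            rwa [T_line, Wk_add, mul_div_assoc] at this))
        (fun u _ => (((hg u).const_mul c).const_add _).hasDerivWithinAt) θc.continuousOn
        (fun u _ => (((hg u).const_mul c).const_add _).continuousAt.continuousWithinAt)
        (by ring) t ⟨hst, le_rfl⟩
    have key2 : ∀ t, θ t = θ 0 - c * g 0 + c * g t := fun t => by
      rcases le_total 0 t with h | h
      · exact key 0 t h
      · linarith [key t 0 h]
    refine ⟨a, θ 0 - c * g 0, by rw [← θr]; exact congrArg range (funext fun t => (key2 t).symm),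
      fun s t => ?_⟩
    rw [θd, key2 t, key2 s]
    congr 2
    ring
  have e10 : ((1, 0) : ℝ × ℝ) ≠ 0 := by simp
  rcases hκ with rfl | rfl | rfl
  · have chart : ∀ P Q, dist (io P) (io Q) = c * ell (T (hom P)) (T (hom Q)) := fun P Q => by
      by_cases hPQ : Q = P
      · have := Bk_one_pos (T.map_ne_zero_iff.2 (hom_ne P))
        rw [hPQ, dist_self, ell, dot_eq, Real.sqrt_mul_self this.le, abs_of_pos this,
          div_self this.ne', Real.arccos_one, mul_zero]
      have he := sub_ne_zero.2 hPQ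
      have hW := ((hs P (mem_univ _)).2 _ he).1
      obtain ⟨a, k, hr, hd⟩ := glob P _ he _ (gs_deriv hW)
      have hLc : L = c * Real.pi := by
        have i1 : Ioo a (a + L) ⊆ Ioo (k - c * (Real.pi / 2)) (k + c * (Real.pi / 2)) := by
          rw [← hr]
          rintro _ ⟨t, rfl⟩
          have b1 := mul_lt_mul_of_pos_left (Real.arctan_lt_pi_div_two
            ((Bk 1 (T (dir (Q - P))) (T (dir (Q - P))) * t + Bk 1 (T (hom P)) (T (dir (Q - P)))) /
              √(Wk 1 (T (hom P)) (T (dir (Q - P)))))) c0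
          have b2 := mul_lt_mul_of_pos_left (Real.neg_pi_div_two_lt_arctan
            ((Bk 1 (T (dir (Q - P))) (T (dir (Q - P))) * t + Bk 1 (T (hom P)) (T (dir (Q - P)))) /
              √(Wk 1 (T (hom P)) (T (dir (Q - P)))))) c0
          simp only [gs]
          constructor <;> linarith
        have i2 : Ioo (k - c * (Real.pi / 2)) (k + c * (Real.pi / 2)) ⊆ Ioo a (a + L) := by
          rw [← hr]
          intro u hu
          have ω0 := Real.sqrt_pos.2 hW
          have r0 := (Brr_pos hW).1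
          refine ⟨(Real.tan ((u - k) / c) * √(Wk 1 (T (hom P)) (T (dir (Q - P)))) -
            Bk 1 (T (hom P)) (T (dir (Q - P)))) / Bk 1 (T (dir (Q - P))) (T (dir (Q - P))), ?_⟩
          simp only [gs]
          rw [mul_div_cancel₀ _ r0.ne', sub_add_cancel, mul_div_cancel_right₀ _ ω0.ne',
            Real.arctan_tan (by rw [lt_div_iff₀ c0]; linarith [hu.1])
              (by rw [div_lt_iff₀ c0]; linarith [hu.2])]
          field_simp
          ring
        have j1 := (Ioo_subset_Ioo_iff (by linarith)).1 i1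
        have j2 := (Ioo_subset_Ioo_iff (by linarith [mul_pos c0 Real.pi_pos])).1 i2
        linarith [j1.1, j1.2, j2.1, j2.2]
      have := hd 0 1
      have e := T_line (T := T) P (Q - P) 1
      rw [gs_val hW] at this
      simp only [one_smul, zero_smul, add_zero, add_sub_cancel] at this e
      subst hLc
      rw [this, ← e, norm_sph c0]
    refine ⟨T, c, c0, fun x y => ?_⟩
    obtain ⟨t1, n1⟩ := dense_chart x.rep
    obtain ⟨t2, n2⟩ := dense_chart y.rep
    have nz : ∀ v : Fin 3 → ℝ, v 2 ≠ 0 → v ≠ 0 := fun v h h0 => h (by simp [h0])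
    have lim : ∀ (p : ℙ ℝ (Fin 3 → ℝ)), Tendsto (fun s : ℝ =>
        io (aff (p.rep + s • (![0, 0, 1] : Fin 3 → ℝ)))) (𝓝[≠] 0) (𝓝 p) := fun p => by
      classical
      obtain ⟨t0, n0⟩ := dense_chart p.rep
      have t3 : Tendsto (fun s : ℝ => if h : p.rep + s • (![0, 0, 1] : Fin 3 → ℝ) ≠ 0 then
          (⟨_, h⟩ : {v : Fin 3 → ℝ // v ≠ 0}) else ⟨p.rep, p.rep_nonzero⟩) (𝓝[≠] 0)
          (𝓝 ⟨p.rep, p.rep_nonzero⟩) := by
        rw [tendsto_subtype_rng]
        refine t0.congr' (n0.mono fun s hs => ?_)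
        simp only [dif_pos (nz _ hs)]
      have t4 := (hmk.tendsto _).comp t3
      simp only [Projectivization.mk_rep] at t4
      refine t4.congr' (n0.mono fun s hs => ?_)
      simp only [Function.comp, dif_pos (nz _ hs)]
      exact mk_eq_io _ hs
    refine tendsto_nhds_unique ((lim x).dist (lim y)) (Tendsto.congr' ?_
      ((tendsto_cosq ((cT.tendsto _).comp t1) ((cT.tendsto _).comp t2)
        (T.map_ne_zero_iff.2 x.rep_nonzero) (T.map_ne_zero_iff.2 y.rep_nonzero)
        continuous_abs).const_mul c))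
    filter_upwards [n1, n2] with s a1 a2
    rw [chart, ← ell_smul a1 a2, ← map_smul, ← map_smul, smul_hom_aff a1, smul_hom_aff a2]
    rfl
  · exfalso
    have ne : ∀ t : ℝ, T (hom 0) 2 + t * T (dir (1, 0)) 2 ≠ 0 := fun t h0 => by
      have := (hs (0 + t • (1, 0)) (mem_univ _)).1
      rw [T_line] at this
      simp only [Bk, Pi.add_apply, Pi.smul_apply, smul_eq_mul, h0] at this
      linarith
    have p2 : T (hom 0) 2 ≠ 0 := by simpa using ne 0
    have r2 : T (dir (1, 0)) 2 = 0 := by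
      by_contra hcon
      exact ne (-(T (hom 0) 2) / T (dir (1, 0)) 2) (by field_simp; ring)
    have ω0 := Real.sqrt_pos.2 ((hs 0 (mem_univ _)).2 _ e10).1
    obtain ⟨a, k, hr, -⟩ := glob 0 _ e10 _ fun t => ge_deriv p2 _ (ne t)
    have b1 := hr.subset (mem_range_self 0)
    have b2 := hr.subset (mem_range_self
      (L * T (hom 0) 2 ^ 2 / (c * √(Wk 0 (T (hom 0)) (T (dir (1, 0)))))))
    simp only [r2, mul_zero, add_zero, zero_div] at b1 b2
    rw [show c * (√(Wk 0 (T (hom 0)) (T (dir (1, 0)))) * (L * T (hom 0) 2 ^ 2 /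
      (c * √(Wk 0 (T (hom 0)) (T (dir (1, 0)))))) / (T (hom 0) 2 * T (hom 0) 2)) = L by
        field_simp] at b2
    linarith [b1.1, b2.2]
  · exfalso
    obtain ⟨t1, n1⟩ := dense_chart (T.symm ![1, 0, 0])
    have cB : Continuous fun v : Fin 3 → ℝ => Bk (-1) v v := by unfold Bk; fun_prop
    have t2 := ((cB.comp cT).tendsto _).comp t1
    obtain ⟨s, a1, a2⟩ := (n1.and (t2.eventually (gt_mem_nhds (show _ < (0 : ℝ) by
      simp [Bk])))).exists
    have a3 := (hs (aff (T.symm ![1, 0, 0] + s • ![0, 0, 1])) (mem_univ _)).1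
    simp only [Function.comp] at a2
    rw [← smul_hom_aff a1, map_smul] at a2
    simp only [Bk, Pi.smul_apply, smul_eq_mul] at a2 a3
    nlinarith [mul_pos (mul_self_pos.2 a1) a3]

end Pool.Agent.Lib.MP_deb346_gt
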