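import Pool.Agent.Lib.MP_deb346_gt.Side

set_option autoImplicit false

open Set Filter Topology

namespace Pool.Agent.Lib.MP_deb346_gt

variable {U V : Set (ℝ × ℝ)} {d : ℝ × ℝ → ℝ × ℝ → ℝ} {ε ρ : ℝ}

/-- determinant -/
def dt (A : ℝ × ℝ × ℝ) : ℝ := A.1 * A.2.2 - A.2.1 ^ 2

lemma PD.dt_pos {A : ℝ × ℝ × ℝ} (h : PD A) : 0 < dt A := h.facts.2.2

lemma kap_neg (A : ℝ × ℝ × ℝ) (e w : ℝ × ℝ) : kap A (-e) w = -kap A e w := by
  simp only [kap, bf_neg_left, bf_neg_right, neg_neg, neg_div]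

lemma bf_perp {A : ℝ × ℝ × ℝ} {e : ℝ × ℝ} (h : bf A e e ≠ 0) :
    bf A ((-e.2, e.1) + kap A e (-e.2, e.1) • e) ((-e.2, e.1) + kap A e (-e.2, e.1) • e) =
      dt A * (e.1 ^ 2 + e.2 ^ 2) ^ 2 / bf A e e := by
  rw [bf_add_left, bf_smul_left, bf_kap h, bf_add_right, bf_smul_right, kap]
  field_simp
  simp only [bf, dt]
  ring

lemma tendsto_kap {ι : Type*} {l : Filter ι} {B : ι → ℝ × ℝ × ℝ} {A : ℝ × ℝ × ℝ}
    (h : Tendsto B l (𝓝 A)) {e : ℝ × ℝ} (he : bf A e e ≠ 0) (w : ℝ × ℝ) :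
    Tendsto (fun i => kap (B i) e w) l (𝓝 (kap A e w)) :=
  ((((continuous_bf e w).tendsto A).comp h).div (((continuous_bf e e).tendsto A).comp h) he).neg

lemma Good.transfer (h : Good U d ε V ρ) {A : ℝ × ℝ → ℝ × ℝ × ℝ}
    (hA : ∀ P ∈ V, Conf U d V P (A P)) {F e : ℝ × ℝ} {L D : ℝ} (hF : F ∈ V)
    (hF' : F + L • e ∈ V) (he : e ≠ 0) (hL : 0 < L)
    (hD : Tendsto (fun x : ℝ => d F (F + x • (-e)) / x) (𝓝[>] 0) (𝓝 D)) :
    Tendsto (fun y : ℝ => d (F + L • e) (F + L • e + y • e) / y) (𝓝[>] 0)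
      (𝓝 (D * (dt (A F) / bf (A F) e e ^ 2) *
        (bf (A (F + L • e)) e e ^ 2 / dt (A (F + L • e))))) := by
  have hFU := h.sub hF
  have hFU' := h.sub hF'
  have he' := neg_ne_zero.2 he
  obtain ⟨x0, x0p, hx0⟩ := exists_back h.openV hF e
  rw [show F - x0 • e = F + x0 • (-e) by module] at hx0
  have pos : ∀ δ : ℝ, 0 < δ → δ ≤ x0 → 0 < d F (F + δ • (-e)) := fun δ h1 h2 => by
    have := h.ray_lt (x := F) he' le_rfl h1 hFU (convex_ray h.convex h1.le h2 hFU (h.sub hx0))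
    rwa [zero_smul, add_zero, h.self hFU] at this
  set s : ℝ → ℝ := fun y => d (F + L • e) (F + L • e + y • e) with hs
  have ty := tendsto_ray (F + L • e) e
  have ts : Tendsto s (𝓝[>] 0) (𝓝 0) := by
    have := h.tendsto hFU' hFU' tendsto_const_nhds ty
    rwa [h.self hFU'] at this
  have yV := ty.eventually (h.openV.mem_nhds hF')
  have sp : ∀ᶠ y in 𝓝[>] (0 : ℝ), 0 < s y := by
    filter_upwards [yV, self_mem_nhdsWithin] with y a1 a2
    have := h.ray_lt (x := F + L • e) he le_rfl a2 hFU' (h.sub a1)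
    rwa [zero_smul, add_zero, h.self hFU'] at this
  have hex : ∀ y : ℝ, ∃ x : ℝ, 0 < s y → s y ≤ d F (F + x0 • (-e)) →
      0 < x ∧ x ≤ x0 ∧ d F (F + x • (-e)) = s y := fun y => by
    by_cases hc : 0 < s y ∧ s y ≤ d F (F + x0 • (-e))
    · obtain ⟨t, ht, e1⟩ := intermediate_value_Icc x0p.le
        (h.contOn_ray (x := F) (u := -e) (a := 0) hFU (by simpa using hFU) (h.sub hx0))
        (show s y ∈ Icc _ _ from ⟨by simp [h.self hFU, hc.1.le], hc.2⟩)
      refine ⟨t, fun _ _ => ⟨lt_of_le_of_ne ht.1 fun h1 => ?_, ht.2, e1⟩⟩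
      rw [← h1] at e1
      simp only [zero_smul, add_zero, h.self hFU] at e1
      linarith [hc.1]
    · exact ⟨0, fun h1 h2 => absurd ⟨h1, h2⟩ hc⟩
  choose x hx using hex
  have xv : ∀ᶠ y in 𝓝[>] (0 : ℝ), 0 < x y ∧ x y ≤ x0 ∧ d F (F + x y • (-e)) = s y := by
    filter_upwards [sp, ts.eventually (ge_mem_nhds (pos x0 x0p le_rfl))] with y a1 a2
    exact hx y a1 a2
  have tx : Tendsto x (𝓝[>] 0) (𝓝[>] 0) := by
    refine tendsto_nhdsWithin_iff.2 ⟨tendsto_order.2 ⟨fun c hc => ?_, fun c hc => ?_⟩,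
      xv.mono fun y a => a.1⟩
    · exact xv.mono fun y a => hc.trans a.1
    · have m0 : 0 < min c x0 := lt_min hc x0p
      filter_upwards [xv, ts.eventually (gt_mem_nhds (pos _ m0 (min_le_right _ _)))] with y a1 a2
      by_contra hcon
      have := h.ray_le m0.le ((min_le_left _ _).trans (not_lt.1 hcon)) hFU
        (convex_ray h.convex a1.1.le a1.2.1 hFU (h.sub hx0))
      linarith [a1.2.2]
  set w : ℝ × ℝ := (-e.2, e.1) with hw
  have hex2 : ∀ y : ℝ, ∃ Γ : ℝ, 0 < y → F + L • e + y • e ∈ V → s y < ρ / 2 →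
      0 < x y ∧ x y ≤ x0 ∧ d F (F + x y • (-e)) = s y → ∀ p q : ℝ, F + (p • e + q • w) ∈ U →
      (d F (F + (p • e + q • w)) + d (F + L • e) (F + (p • e + q • w)) ≤
          d F (F + L • e) + 2 * s y → Γ * q ^ 2 ≤ (p + x y - kap (A (F + x y • (-e))) e w * q) *
            (L + y - p + kap (A (F + L • e + y • e)) e w * q)) ∧
      (d F (F + L • e) + 2 * s y ≤
          d F (F + (p • e + q • w)) + d (F + L • e) (F + (p • e + q • w)) →
        (p + x y - kap (A (F + x y • (-e))) e w * q) *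
            (L + y - p + kap (A (F + L • e + y • e)) e w * q) ≤ Γ * q ^ 2) := fun y => by
    by_cases hc : 0 < y ∧ F + L • e + y • e ∈ V ∧ s y < ρ / 2 ∧
      (0 < x y ∧ x y ≤ x0 ∧ d F (F + x y • (-e)) = s y)
    · obtain ⟨c1, c2, c3, c4, c5, c6⟩ := hc
      have c7 := convex_ray h.convV c4.le c5 hF hx0
      obtain ⟨Γ, hΓ⟩ := h.thin_repr hF hF' he hL c4 c1 c7 c2 c6 rfl c3 (hA _ c7) (hA _ c2) w
      exact ⟨Γ, fun _ _ _ _ => hΓ⟩
    · exact ⟨0, fun h1 h2 h3 h4 => absurd ⟨h1, h2, h3, h4⟩ hc⟩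
  choose Γ hΓ using hex2
  have rep := (((eventually_mem_nhdsWithin (s := Ioi (0 : ℝ)) (a := 0)).and yV).and
    ((ts.eventually (gt_mem_nhds (half_pos h.rpos))).and xv)).mono
    fun y a => And.intro a.2.2.2.2 (hΓ y a.1.1 a.1.2 a.2.1 a.2.2)
  have a1 := (hA F hF).1 e he
  have a2 := (hA _ hF').1 e he
  have d1 := (hA F hF).1.dt_pos
  have d2 := (hA _ hF').1.dt_pos
  have ep := sq_pos_of_ne he
  have k1 := tendsto_kap ((h.conf_cont hA hF).tendsto.comp ((tendsto_ray F (-e)).comp tx)) a1.ne' w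
  have k2 := tendsto_kap ((h.conf_cont hA hF').tendsto.comp ty) a2.ne' w
  have y0 : Tendsto (fun y : ℝ => y) (𝓝[>] 0) (𝓝 0) := tendsto_id.mono_left nhdsWithin_le_nhds
  have s1 := h.side (Γ := Γ) hF hF' rfl he hL (hA F hF)
    (by rw [bf_perp a1.ne']; positivity) tx y0 k1 k2 (rep.mono fun y a => by
      rw [a.1]; exact a.2)
  have kw : w + kap (A (F + L • e)) (-e) w • (-e) = w + kap (A (F + L • e)) e w • e := by
    rw [kap_neg]; module
  have s2 := h.side (Γ := Γ) (w := w) (L := L) (e := -e) (x := fun y => y) (y := x)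
    (κ := fun y => -kap (A (F + L • e + y • e)) e w) (κ' := fun y => -kap (A (F + x y • (-e))) e w)
    hF' hF (by module) he' hL (hA _ hF') (by rw [kw, bf_perp a2.ne']; positivity) tendsto_id
    (tx.mono_right nhdsWithin_le_nhds) (by rw [kap_neg]; exact k2.neg) k1.neg
    (rep.mono fun y a p q => by
      have r : F + L • e + (p • (-e) + q • w) = F + ((L - p) • e + q • w) := by module
      rw [r, neg_neg, h.symm _ hFU' _ hFU]
      intro hm
      obtain ⟨b1, b2⟩ := a.2 (L - p) q hm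
      exact ⟨fun h1 => by linarith [b1 (by simp only [hs]; linarith)],
        fun h1 => by linarith [b2 (by simp only [hs]; linarith)]⟩)
  rw [kw, bf_perp a2.ne', bf_neg_left, bf_neg_right, neg_neg] at s2
  rw [bf_perp a1.ne'] at s1
  have p2 : 0 < L * (dt (A (F + L • e)) * (e.1 ^ 2 + e.2 ^ 2) ^ 2 / bf (A (F + L • e)) e e) /
      (4 * bf (A (F + L • e)) e e) := by positivity
  have fin := (hD.comp tx).mul (s1.div s2 p2.ne')
  refine (fin.congr' ?_).trans (le_of_eq (congrArg 𝓝 ?_))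
  · filter_upwards [xv, s2.eventually (lt_mem_nhds p2), self_mem_nhdsWithin] with y b1 b2 b3
    have y1 : (0 : ℝ) < y := b3
    have g : Γ y ≠ 0 := by
      intro h0
      rw [h0, zero_mul] at b2
      exact lt_irrefl _ b2
    have x1 := b1.1.ne'
    simp only [Function.comp, Pi.div_apply, b1.2.2, hs]
    field_simp
  · field_simp

lemma deriv_right_of {τ g : ℝ → ℝ} {t c : ℝ} (h1 : ∀ᶠ y in 𝓝[>] (0 : ℝ), τ (t + y) - τ t = g y)
    (h2 : Tendsto (fun y => g y / y) (𝓝[>] 0) (𝓝 c)) : HasDerivWithinAt τ c (Ici t) t := by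
  refine HasDerivWithinAt.Ici_of_Ioi ((hasDerivWithinAt_iff_tendsto_slope' (by simp)).2 ?_)
  have ht : Tendsto (fun s : ℝ => s - t) (𝓝[>] t) (𝓝[>] 0) := by
    refine tendsto_nhdsWithin_iff.2 ⟨?_, ?_⟩
    · have : Continuous fun s : ℝ => s - t := by fun_prop
      simpa using (this.tendsto t).mono_left nhdsWithin_le_nhds
    · filter_upwards [self_mem_nhdsWithin] with s hs
      exact sub_pos.2 (mem_Ioi.1 hs)
  refine (h2.comp ht).congr' ?_
  filter_upwards [ht.eventually h1] with s hs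
  rw [add_sub_cancel] at hs
  simp only [Function.comp, slope_def_field, hs]

lemma Good.line_speed (h : Good U d ε V ρ) {A : ℝ × ℝ → ℝ × ℝ × ℝ}
    (hA : ∀ P ∈ V, Conf U d V P (A P)) {P e : ℝ × ℝ} (hP : P ∈ V) (he : e ≠ 0) :
    ∃ C : ℝ, 0 < C ∧ ∀ᶠ t : ℝ in 𝓝 0, Tendsto (fun y : ℝ => d (P + t • e) (P + t • e + y • e) / y)
      (𝓝[>] 0) (𝓝 (C * (bf (A (P + t • e)) e e ^ 2 / dt (A (P + t • e))))) := by
  have hc : Continuous fun t : ℝ => P + t • e := by fun_prop
  have e1 : ∀ᶠ t : ℝ in 𝓝 0, P + t • e ∈ V :=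
    hc.continuousAt.eventually_mem (by simpa using h.openV.mem_nhds hP)
  obtain ⟨δ, δ0, hδ⟩ := Metric.eventually_nhds_iff_ball.1 e1
  set r := δ / 4 with hr
  have r0 : 0 < r := by positivity
  have inV : ∀ t : ℝ, -(3 * r) ≤ t → t ≤ 3 * r → P + t • e ∈ V := fun t h1 h2 =>
    hδ t (by rw [Metric.mem_ball, Real.dist_eq, abs_lt]; constructor <;> linarith)
  set τ : ℝ → ℝ := fun t => d (P + (-(3 * r)) • e) (P + t • e) with hτ
  have m0 := h.sub (inV _ le_rfl (by linarith))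
  have inc : ∀ s t : ℝ, -(3 * r) ≤ s → s ≤ t → t ≤ 3 * r →
      τ t - τ s = d (P + s • e) (P + t • e) := fun s t h1 h2 h3 => by
    have := h.addl h1 h2 m0 (h.sub (inV t (by linarith) h3))
    simp only [hτ]; linarith
  have mono : MonotoneOn τ (Ioo (-(2 * r)) (-r)) := fun s hs t ht hst => by
    have a1 := inc s t (by linarith [hs.1]) hst (by linarith [ht.2])
    have a2 := h.nonneg (h.sub (inV s (by linarith [hs.1]) (by linarith [hs.2])))
      (h.sub (inV t (by linarith [ht.1]) (by linarith [ht.2])))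
    linarith
  obtain ⟨t1, ht1, hdiff⟩ : ∃ t1 ∈ Ioo (-(2 * r)) (-r), DifferentiableAt ℝ τ t1 := by
    have hne : MeasureTheory.volume (Ioo (-(2 * r)) (-r)) ≠ 0 := by
      rw [Real.volume_Ioo]; simp only [ne_eq, ENNReal.ofReal_eq_zero, not_le]; linarith
    obtain ⟨t1, h1, h2⟩ := MeasureTheory.Measure.exists_mem_of_measure_ne_zero_of_ae hne
      (mono.ae_differentiableWithinAt measurableSet_Ioo)
    exact ⟨t1, h1, h2.differentiableAt (isOpen_Ioo.mem_nhds h1)⟩
  have hF := inV t1 (by linarith [ht1.1]) (by linarith [ht1.2])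
  have hD : Tendsto (fun x : ℝ => d (P + t1 • e) (P + t1 • e + x • (-e)) / x) (𝓝[>] 0)
      (𝓝 (deriv τ t1)) := by
    have tn : Tendsto (fun x : ℝ => -x) (𝓝[>] 0) (𝓝[<] 0) := by
      simpa using tendsto_neg_nhdsGT (a := (0 : ℝ))
    refine (hdiff.hasDerivAt.tendsto_slope_zero_left.comp tn).congr' ?_
    filter_upwards [self_mem_nhdsWithin, nhdsWithin_le_nhds (gt_mem_nhds r0)] with x a1 a2
    have x0 : (0 : ℝ) < x := a1
    have a3 := inc (t1 + -x) t1 (by linarith [ht1.1]) (by linarith) (by linarith [ht1.2])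
    have a4 : P + t1 • e + x • (-e) = P + (t1 + -x) • e := by module
    rw [a4, h.symm _ (h.sub hF) _
      (h.sub (inV _ (by linarith [ht1.1]) (by linarith [ht1.2]))), ← a3]
    simp only [Function.comp, smul_eq_mul]
    field_simp
    ring
  have lim : ∀ t : ℝ, -r ≤ t → t ≤ r →
      Tendsto (fun y : ℝ => d (P + t • e) (P + t • e + y • e) / y) (𝓝[>] 0)
        (𝓝 (deriv τ t1 * (dt (A (P + t1 • e)) / bf (A (P + t1 • e)) e e ^ 2) *
          (bf (A (P + t • e)) e e ^ 2 / dt (A (P + t • e))))) := fun t h1 h2 => by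
    have a1 : P + t1 • e + (t - t1) • e = P + t • e := by module
    have := h.transfer hA hF (L := t - t1) (a1 ▸ inV t (by linarith) (by linarith)) he
      (by linarith [ht1.2]) hD
    rwa [a1] at this
  have D0 : 0 ≤ deriv τ t1 := by
    refine ge_of_tendsto hD ?_
    filter_upwards [self_mem_nhdsWithin,
      (tendsto_ray _ (-e)).eventually (h.isOpen.mem_nhds (h.sub hF))] with x a1 a2
    exact div_nonneg (h.nonneg (h.sub hF) a2) (le_of_lt a1)
  have D1 : deriv τ t1 ≠ 0 := by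
    intro h0
    have hr3 := h.sub (inV r (by linarith) (by linarith))
    have h00 := h.sub (inV 0 (by linarith) (by linarith))
    have := constant_of_has_deriv_right_zero (f := τ) (a := 0) (b := r) (h.contOn_ray m0 h00 hr3)
      (fun t ht => deriv_right_of (g := fun y => d (P + t • e) (P + t • e + y • e)) (by
        filter_upwards [self_mem_nhdsWithin, nhdsWithin_le_nhds (gt_mem_nhds r0)] with y a1 a2
        have y0 : (0 : ℝ) < y := a1
        rw [inc t (t + y) (by linarith [ht.1]) (by linarith) (by linarith [ht.2]), add_smul,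
          add_assoc]) (by
        have := lim t (by linarith [ht.1]) ht.2.le
        rwa [h0, zero_mul, zero_mul] at this)) r ⟨r0.le, le_rfl⟩
    have a1 := inc 0 r (by linarith) r0.le (by linarith)
    have a2 := h.ray_lt (x := P) he le_rfl r0 (h.sub hP) hr3
    rw [zero_smul, add_zero] at a1 a2
    rw [h.self (h.sub hP)] at a2
    linarith
  refine ⟨_, mul_pos (lt_of_le_of_ne D0 D1.symm)
    (div_pos (hA _ hF).1.dt_pos (pow_pos ((hA _ hF).1 e he) 2)), ?_⟩
  filter_upwards [Icc_mem_nhds (neg_lt_zero.2 r0) r0] with t ht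
  exact lim t ht.1 ht.2

end Pool.Agent.Lib.MP_deb346_gt
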