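import Pool.Agent.Lib.MP_deb346_gt.Local

set_option autoImplicit false

open Set Filter Topology

namespace Pool.Agent.Lib.MP_deb346_gt

variable {U V : Set (ℝ × ℝ)} {d : ℝ × ℝ → ℝ × ℝ → ℝ} {ε ρ : ℝ}

lemma dt_smul (c : ℝ) (A : ℝ × ℝ × ℝ) : dt (c • A) = c ^ 2 * dt A := by
  simp only [dt, Prod.smul_fst, Prod.smul_snd, smul_eq_mul]; ring

lemma bf_ext {G G' : ℝ × ℝ × ℝ} (h1 : bf G (1, 0) (1, 0) = bf G' (1, 0) (1, 0))
    (h2 : bf G (0, 1) (0, 1) = bf G' (0, 1) (0, 1))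
    (h3 : bf G (1, 1) (1, 1) = bf G' (1, 1) (1, 1)) : G = G' := by
  simp only [bf, mul_one, mul_zero, add_zero, zero_add] at h1 h2 h3
  exact Prod.ext h1 (Prod.ext (by linarith) h2)

/-- infinitesimal length -/
def Lim (d : ℝ × ℝ → ℝ × ℝ → ℝ) (P : ℝ × ℝ) (G : ℝ × ℝ × ℝ) : Prop :=
  PD G ∧ ∀ v : ℝ × ℝ, v ≠ 0 →
    Tendsto (fun y : ℝ => d P (P + y • v) / y) (𝓝[>] 0) (𝓝 √(bf G v v))

lemma Lim.unique {P : ℝ × ℝ} {G G' : ℝ × ℝ × ℝ} (h : Lim d P G) (h' : Lim d P G') : G = G' := by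
  have key : ∀ v : ℝ × ℝ, v ≠ 0 → bf G v v = bf G' v v := fun v hv =>
    (Real.sqrt_inj (h.1.nonneg v) (h'.1.nonneg v)).1 (tendsto_nhds_unique (h.2 v hv) (h'.2 v hv))
  exact bf_ext (key _ (by simp)) (key _ (by simp)) (key _ (by simp))

lemma Good.exists_lim (h : Good U d ε V ρ) {A : ℝ × ℝ → ℝ × ℝ × ℝ}
    (hA : ∀ P ∈ V, Conf U d V P (A P)) {P : ℝ × ℝ} (hP : P ∈ V) :
    ∃ M : ℝ, 0 < M ∧ Lim d P (M • A P) := by
  have hpd := (hA P hP).1
  have hex : ∀ v : ℝ × ℝ, ∃ n : ℝ, v ≠ 0 → 0 < n ∧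
      Tendsto (fun y : ℝ => d P (P + y • v) / y) (𝓝[>] 0) (𝓝 n) := fun v => by
    by_cases hv : v = 0
    · exact ⟨0, fun h1 => absurd hv h1⟩
    · obtain ⟨C, C0, hC⟩ := h.line_speed hA hP hv
      have := hC.self_of_nhds
      rw [zero_smul, add_zero] at this
      exact ⟨_, fun _ => ⟨mul_pos C0 (div_pos (pow_pos (hpd v hv) 2) hpd.dt_pos), this⟩⟩
  choose n hn using hex
  have cmp : ∀ v w : ℝ × ℝ, v ≠ 0 → w ≠ 0 → n v ^ 2 * bf (A P) w w ≤ n w ^ 2 * bf (A P) v v := by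
    intro v w hv hw
    have av := hpd v hv
    have aw := hpd w hw
    have nv := (hn v hv).1
    have nw := (hn w hw).1
    have step : ∀ η : ℝ, 0 < η → n v ^ 2 * bf (A P) w w ≤ (1 + η) * (n w ^ 2 * bf (A P) v v) := by
      intro η hη
      obtain ⟨k, k0, hk⟩ : ∃ k : ℝ, 0 < k ∧ k ^ 2 * bf (A P) w w = (1 + η) * bf (A P) v v :=
        ⟨√((1 + η) * bf (A P) v v / bf (A P) w w), Real.sqrt_pos.2 (by positivity), by
          rw [Real.sq_sqrt (by positivity)]; field_simp⟩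
      have e1 := h.iso_ray hP (hA P hP) hη 0 (v := v) (w := k • w) (smul_ne_zero k0.ne' hw) (by
        rw [bf_smul_left, bf_smul_right]; linarith)
      have tk : Tendsto (fun y : ℝ => y * k) (𝓝[>] 0) (𝓝[>] 0) := by
        refine tendsto_nhdsWithin_iff.2 ⟨?_, ?_⟩
        · have : Continuous fun y : ℝ => y * k := by fun_prop
          simpa using (this.tendsto 0).mono_left nhdsWithin_le_nhds
        · filter_upwards [self_mem_nhdsWithin] with y hy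
          exact mul_pos (mem_Ioi.1 hy) k0
      have le1 : n v ≤ n w * k := by
        refine le_of_tendsto_of_tendsto (hn v hv).2 (((hn w hw).2.comp tk).mul_const k) ?_
        filter_upwards [e1, self_mem_nhdsWithin] with y a1 a2
        have y0 : (0 : ℝ) < y := a2
        rw [smul_zero, add_zero, smul_smul] at a1
        simp only [Function.comp]
        rw [show d P (P + (y * k) • w) / (y * k) * k = d P (P + (y * k) • w) / y by field_simp]
        exact div_le_div_of_nonneg_right a1 y0.le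
      have le2 : n v ^ 2 ≤ (n w * k) ^ 2 := by gcongr
      calc n v ^ 2 * bf (A P) w w ≤ (n w * k) ^ 2 * bf (A P) w w := by gcongr
        _ = n w ^ 2 * (k ^ 2 * bf (A P) w w) := by ring
        _ = _ := by rw [hk]; ring
    by_contra hcon
    obtain ⟨η, η0, -, hη⟩ := exists_eta (f := fun η => (1 + η) * (n w ^ 2 * bf (A P) v v))
      (g := fun _ => n v ^ 2 * bf (A P) w w) (by fun_prop) (by fun_prop) (by linarith)
    linarith [step η η0]
  have e0 : ((1, 0) : ℝ × ℝ) ≠ 0 := by simp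
  have a0 := hpd _ e0
  have n0 := (hn _ e0).1
  refine ⟨n (1, 0) ^ 2 / bf (A P) (1, 0) (1, 0), by positivity, fun u hu => ?_, fun v hv => ?_⟩
  · rw [bf_smul]; exact mul_pos (by positivity) (hpd u hu)
  · have e := le_antisymm (cmp v _ hv e0) (cmp _ v e0 hv)
    have e2 : bf ((n (1, 0) ^ 2 / bf (A P) (1, 0) (1, 0)) • A P) v v = n v ^ 2 := by
      rw [bf_smul]; field_simp; linarith
    rw [e2, Real.sqrt_sq (hn v hv).1.le]
    exact (hn v hv).2

/-- every point has a neighbourhood with the local property -/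
def LocLoc (Ω : Set (ℝ × ℝ)) (d : ℝ × ℝ → ℝ × ℝ → ℝ) : Prop :=
  ∀ P ∈ Ω, ∃ U ε, P ∈ U ∧ Loc U d ε

lemma exists_a {Ω : Set (ℝ × ℝ)} (hΩ : Convex ℝ Ω) (h : LocLoc Ω d) :
    ∃ a : ℝ × ℝ → ℝ × ℝ × ℝ, (∀ P ∈ Ω, PD (a P) ∧ ∀ v : ℝ × ℝ, v ≠ 0 →
      Tendsto (fun y : ℝ => d P (P + y • v) / y) (𝓝[>] 0) (𝓝 (√(bf (a P) v v) / dt (a P)))) ∧
      ∀ P ∈ Ω, ∀ e : ℝ × ℝ, P + e ∈ Ω → bf (a (P + e)) e e = bf (a P) e e := by
  have good : ∀ P ∈ Ω, ∃ U ε V ρ, ∃ A : ℝ × ℝ → ℝ × ℝ × ℝ, P ∈ V ∧ Good U d ε V ρ ∧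
      ∀ X ∈ V, Conf U d V X (A X) := fun P hP => by
    obtain ⟨U, ε, h1, h2⟩ := h P hP
    obtain ⟨V, ρ, h3, h4⟩ := h2.exists_good h1
    have : ∀ X, ∃ A, X ∈ V → Conf U d V X A := fun X => by
      by_cases hX : X ∈ V
      · obtain ⟨A, hA⟩ := h4.exists_conf hX
        exact ⟨A, fun _ => hA⟩
      · exact ⟨0, fun h5 => absurd h5 hX⟩
    choose A hA using this
    exact ⟨U, ε, V, ρ, A, h3, h4, hA⟩
  have hex : ∀ P, ∃ a : ℝ × ℝ × ℝ, P ∈ Ω → PD a ∧ Lim d P ((dt a ^ 2)⁻¹ • a) := fun P => by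
    by_cases hP : P ∈ Ω
    · obtain ⟨U, ε, V, ρ, A, h1, h2, h3⟩ := good P hP
      obtain ⟨M, -, hM⟩ := h2.exists_lim h3 h1
      set G := M • A P
      have g0 := hM.1.dt_pos
      obtain ⟨δ, δ0, hδ⟩ : ∃ δ : ℝ, 0 < δ ∧ δ ^ 3 = dt G :=
        ⟨dt G ^ ((3 : ℕ) : ℝ)⁻¹, Real.rpow_pos_of_pos g0 _,
          Real.rpow_inv_natCast_pow g0.le (by norm_num)⟩
      refine ⟨(δ ^ 2)⁻¹ • G, fun _ => ⟨fun u hu => ?_, ?_⟩⟩
      · rw [bf_smul]; exact mul_pos (by positivity) (hM.1 u hu)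
      · rw [dt_smul, ← hδ, smul_smul,
          show (((δ ^ 2)⁻¹ ^ 2 * δ ^ 3) ^ 2)⁻¹ * (δ ^ 2)⁻¹ = 1 by field_simp, one_smul]
        exact hM
    · exact ⟨0, fun h1 => absurd h1 hP⟩
  choose a ha using hex
  have sq : ∀ P ∈ Ω, ∀ v, √(bf ((dt (a P) ^ 2)⁻¹ • a P) v v) = √(bf (a P) v v) / dt (a P) := by
    intro P hP v
    have := (ha P hP).1.dt_pos
    rw [bf_smul, Real.sqrt_mul (by positivity), Real.sqrt_inv, Real.sqrt_sq this.le]
    ring
  refine ⟨a, fun P hP => ⟨(ha P hP).1, fun v hv => sq P hP v ▸ (ha P hP).2.2 v hv⟩,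
    fun P hP e hPe => ?_⟩
  by_cases he : e = 0
  · simp [he]
  have hs : Convex ℝ {t : ℝ | P + t • e ∈ Ω} := fun s hs t ht α β h1 h2 h3 => by
    have := hΩ hs ht h1 h2 h3
    rwa [show α • (P + s • e) + β • (P + t • e) = (α + β) • P + (α • s + β • t) • e by module,
      h3, one_smul] at this
  have key := hs.isPreconnected.induction₂
    (fun s t => bf (a (P + s • e)) e e = bf (a (P + t • e)) e e) (fun t0 ht0 => ?_)
    (fun _ _ _ _ _ _ h1 h2 => h1.trans h2) (fun _ _ _ _ h1 => h1.symm)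
    (x := 1) (y := 0) (by simpa using hPe) (by simpa using hP)
  · simpa using key
  obtain ⟨U, ε, V, ρ, A, h1, h2, h3⟩ := good _ ht0
  obtain ⟨C, C0, hC⟩ := h2.line_speed h3 h1 he
  have hc : Continuous fun t : ℝ => P + t0 • e + t • e := by fun_prop
  have e1 : ∀ᶠ t : ℝ in 𝓝 0, P + t0 • e + t • e ∈ V :=
    hc.continuousAt.eventually_mem (by simpa using h2.openV.mem_nhds h1)
  have e2 : ∀ᶠ t : ℝ in 𝓝 0, P + t0 • e + t • e ∈ Ω →
      bf (a (P + t0 • e + t • e)) e e ^ 3 = (C ^ 2)⁻¹ := by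
    filter_upwards [hC, e1] with t b1 b2 b3
    set X := P + t0 • e + t • e
    obtain ⟨M, M0, hM⟩ := h2.exists_lim h3 b2
    have c1 := hM.unique (ha X b3).2
    have c2 := tendsto_nhds_unique (hM.2 e he) b1
    have p1 := (ha X b3).1.dt_pos
    have p2 := (h3 X b2).1.dt_pos
    have p3 := (h3 X b2).1 e he
    have c3 : M * bf (A X) e e = (C * (bf (A X) e e ^ 2 / dt (A X))) ^ 2 := by
      rw [← c2, Real.sq_sqrt (hM.1.nonneg e), bf_smul]
    have c4 := congrArg dt c1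
    have c5 := congrArg (fun G => bf G e e) c1
    simp only [dt_smul, bf_smul] at c4 c5
    have c6 : bf (a X) e e = dt (a X) ^ 2 * (M * bf (A X) e e) := by rw [c5]; field_simp
    have c7 : dt (a X) ^ 3 * M ^ 2 * dt (A X) = 1 := by
      rw [mul_assoc, c4]; field_simp
    have c8 : M * dt (A X) ^ 2 = C ^ 2 * bf (A X) e e ^ 3 := by
      apply mul_right_cancel₀ p3.ne'
      rw [show M * dt (A X) ^ 2 * bf (A X) e e = M * bf (A X) e e * dt (A X) ^ 2 by ring, c3]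
      field_simp
    rw [c6]
    field_simp
    have c9 : (dt (a X) ^ 3 * M ^ 2 * dt (A X)) ^ 2 = 1 := by rw [c7]; norm_num
    linear_combination c9 - dt (a X) ^ 6 * M ^ 3 * c8
  have tt : Tendsto (fun t : ℝ => t - t0) (𝓝 t0) (𝓝 0) := by
    have : Continuous fun t : ℝ => t - t0 := by fun_prop
    simpa using this.tendsto t0
  have f0 := e2.self_of_nhds (by simpa using ht0)
  rw [zero_smul, add_zero] at f0
  filter_upwards [(tt.eventually e2).filter_mono nhdsWithin_le_nhds, self_mem_nhdsWithin]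
    with t b1 b2
  rw [show P + t0 • e + (t - t0) • e = P + t • e by module] at b1
  exact (pow_left_inj₀ ((ha _ ht0).1.nonneg e) ((ha _ b2).1.nonneg e) (by norm_num)).1
    (f0.trans (b1 b2).symm)

end Pool.Agent.Lib.MP_deb346_gt
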