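import Pool.Agent.Lib.MP_deb346_gt.Thin

set_option autoImplicit false

open Set Filter Topology

namespace Pool.Agent.Lib.MP_deb346_gt

variable {U V : Set (ℝ × ℝ)} {d : ℝ × ℝ → ℝ × ℝ → ℝ} {ε ρ : ℝ}

/-- slope of the orthogonal direction -/
noncomputable def kap (A : ℝ × ℝ × ℝ) (e w : ℝ × ℝ) : ℝ := -(bf A e w / bf A e e)

lemma bf_kap {A : ℝ × ℝ × ℝ} {e : ℝ × ℝ} (h : bf A e e ≠ 0) (w : ℝ × ℝ) :
    bf A e (w + kap A e w • e) = 0 := by
  rw [bf_add_right, bf_smul_right, kap]; field_simp; ring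

lemma Good.thin_repr (h : Good U d ε V ρ) {F e : ℝ × ℝ} {L x y s : ℝ} (hF : F ∈ V)
    (hF' : F + L • e ∈ V) (he : e ≠ 0) (hL : 0 < L) (hx : 0 < x) (hy : 0 < y)
    (hxV : F + x • (-e) ∈ V) (hyV : F + L • e + y • e ∈ V) (dx : d F (F + x • (-e)) = s)
    (dy : d (F + L • e) (F + L • e + y • e) = s) (hs : s < ρ / 2) {A1 A2 : ℝ × ℝ × ℝ}
    (h1 : Conf U d V (F + x • (-e)) A1) (h2 : Conf U d V (F + L • e + y • e) A2) (w : ℝ × ℝ) :
    ∃ Γ : ℝ, ∀ p q : ℝ, F + (p • e + q • w) ∈ U →
      (d F (F + (p • e + q • w)) + d (F + L • e) (F + (p • e + q • w)) ≤ d F (F + L • e) + 2 * s →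
        Γ * q ^ 2 ≤ (p + x - kap A1 e w * q) * (L + y - p + kap A2 e w * q)) ∧
      (d F (F + L • e) + 2 * s ≤ d F (F + (p • e + q • w)) + d (F + L • e) (F + (p • e + q • w)) →
        (p + x - kap A1 e w * q) * (L + y - p + kap A2 e w * q) ≤ Γ * q ^ 2) := by
  have hFU := h.sub hF
  have hFU' := h.sub hF'
  have hne : F ≠ F + L • e := by
    intro h0
    rcases smul_eq_zero.1 (left_eq_add.1 h0) with h3 | h3
    · exact hL.ne' h3
    · exact he h3
  have s0 : 0 < s := by
    have := h.ray_lt (x := F) (neg_ne_zero.2 he) le_rfl hx hFU (h.sub hxV)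
    rwa [zero_smul, add_zero, h.self hFU, dx] at this
  obtain ⟨S, b, hc⟩ := h.exists_ell hF hF' hne s0 hs
  have r1 : F + x • (-e) = F + (-x) • e := by simp
  have r2 : F + L • e + y • e = F + (L + y) • e := by module
  have a1 : d (F + L • e) (F + x • (-e)) = d F (F + L • e) + s := by
    have := h.addl (x := F) (u := e) (r := -x) (s := 0) (t := L) (by linarith) hL.le
      (r1 ▸ h.sub hxV) hFU'
    rw [zero_smul, add_zero, ← r1, h.symm _ (h.sub hxV) _ hFU, h.symm _ (h.sub hxV) _ hFU'] at this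
    linarith
  have a2 : d F (F + (L + y) • e) = d F (F + L • e) + s := by
    have := h.addr (x := F) (u := e) (s := L) (t := L + y) hL.le (by linarith) hFU
      (r2 ▸ h.sub hyV)
    rw [← r2] at this ⊢
    linarith
  have v1 := (hc.eq (x • (-e))).1 ⟨h.sub hxV, by simp only [dx, a1]; ring⟩
  have v2 := (hc.eq ((L + y) • e)).1 ⟨r2 ▸ h.sub hyV, by rw [a2, ← r2, dy]; ring⟩
  have c1 : F + x • (-e) - (L + x) • (-e) = F + L • e := by module
  have c2 : F + (L + y) • e - (L + y) • e = F := by simp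
  have t1 := tangent hc v1 h1 (neg_ne_zero.2 he) (t := L + x) (by linarith) (by rwa [c1])
    (fun Y hY hf => by
      rw [c1, a1]
      have := h.tri _ hFU' _ hFU _ hY
      rw [h.symm _ hFU' _ hFU] at this
      linarith)
    (z := w + kap A1 e w • e) (by rw [bf_neg_left, bf_kap (h1.1 e he).ne', neg_zero])
  have t2 := tangent hc v2 (r2 ▸ h2) he (t := L + y) (by linarith) (by rwa [c2])
    (fun Y hY hf => by
      rw [c2, a2]
      have := h.tri _ hFU _ hFU' _ hY
      linarith)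
    (z := w + kap A2 e w • e) (bf_kap (h2.1 e he).ne' w)
  simp only [bf_add_right, bf_smul_left, bf_smul_right, bf_neg_left, bf_neg_right, dp_add_right,
    dp_smul_right, dp_neg_right] at v1 v2 t1 t2
  have hα := hc.pd e he
  refine ⟨bf S w w / bf S e e - kap A1 e w * kap A2 e w, fun p q hm => ?_⟩
  have rep := conic_repr (γ := bf S w w) (β := bf S e w) (b1 := dp b e) (b2 := dp b w)
    (κ := kap A1 e w) (κ' := kap A2 e w) hα hx (show 0 < L + y by linarith)
    (by linear_combination v1) (by linear_combination v2) (by linear_combination t1)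
    (by linear_combination t2) p q
  have ex : bf S (p • e + q • w) (p • e + q • w) + 2 * dp b (p • e + q • w) - 1 =
      bf S e e * ((bf S w w / bf S e e - kap A1 e w * kap A2 e w) * q ^ 2 -
        (p + x - kap A1 e w * q) * (L + y - p + kap A2 e w * q)) := by
    rw [← rep]
    simp only [bf_add_left, bf_add_right, bf_smul_left, bf_smul_right, dp_add_right, dp_smul_right,
      bf_comm S w e]
    ring
  constructor
  · intro hle
    have : bf S (p • e + q • w) (p • e + q • w) + 2 * dp b (p • e + q • w) ≤ 1 := by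
      rcases hle.lt_or_eq with h3 | h3
      · exact ((hc.lt _).1 ⟨hm, h3⟩).le
      · exact ((hc.eq _).1 ⟨hm, h3⟩).le
    by_contra hcon
    have := mul_pos hα (sub_pos.2 (not_le.1 hcon))
    linarith
  · intro hge
    have : 1 ≤ bf S (p • e + q • w) (p • e + q • w) + 2 * dp b (p • e + q • w) := by
      by_contra hcon
      have := ((hc.lt _).2 (not_le.1 hcon)).2
      linarith
    by_contra hcon
    have := mul_pos hα (sub_pos.2 (not_le.1 hcon))
    linarith

lemma Good.side (h : Good U d ε V ρ) {F F' e w : ℝ × ℝ} {L : ℝ} (hF : F ∈ V) (hF' : F' ∈ V)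
    (hFF : F' = F + L • e) (he : e ≠ 0) (hL : 0 < L) {A : ℝ × ℝ × ℝ} (hA : Conf U d V F A)
    (hw : 0 < bf A (w + kap A e w • e) (w + kap A e w • e))
    {ι : Type*} {l : Filter ι} {x y κ κ' Γ : ι → ℝ} {κ2 : ℝ} (hx : Tendsto x l (𝓝[>] 0))
    (hy : Tendsto y l (𝓝 0)) (hκ : Tendsto κ l (𝓝 (kap A e w))) (hκ' : Tendsto κ' l (𝓝 κ2))
    (hrep : ∀ᶠ i in l, ∀ p q : ℝ, F + (p • e + q • w) ∈ U →
      (d F (F + (p • e + q • w)) + d F' (F + (p • e + q • w)) ≤
          d F F' + 2 * d F (F + x i • (-e)) →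
        Γ i * q ^ 2 ≤ (p + x i - κ i * q) * (L + y i - p + κ' i * q)) ∧
      (d F F' + 2 * d F (F + x i • (-e)) ≤
          d F (F + (p • e + q • w)) + d F' (F + (p • e + q • w)) →
        (p + x i - κ i * q) * (L + y i - p + κ' i * q) ≤ Γ i * q ^ 2)) :
    Tendsto (fun i => Γ i * x i) l
      (𝓝 (L * bf A (w + kap A e w • e) (w + kap A e w • e) / (4 * bf A e e))) := by
  have hFU := h.sub hF
  have hFU' := h.sub hF'
  have ha := hA.1 e he
  have ho := bf_kap ha.ne' w
  set κ1 := kap A e w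
  set m := bf A (w + κ1 • e) (w + κ1 • e)
  set a := bf A e e
  have hC : F - L • (-e) = F' := by rw [hFF]; module
  have hne : F' ≠ F := hC ▸ sub_ne (neg_ne_zero.2 he) hL.ne'
  have hdesc : ∀ z, Desc U d F' F z ↔ 0 < bf A e z := fun z => by
    rw [← hC, ← h.descD_iff hF (neg_ne_zero.2 he) hL (hC ▸ hF'), hA.2.2 _ (neg_ne_zero.2 he),
      bf_neg_left, neg_lt_zero]
  have x0 : Tendsto x l (𝓝 0) := hx.mono_right nhdsWithin_le_nhds
  have xp : ∀ᶠ i in l, 0 < x i := hx.eventually self_mem_nhdsWithin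
  have hz : ∀ η q : ℝ, bf A e (η • e + q • (w + κ1 • e)) = η * a ∧
      bf A (η • e + q • (w + κ1 • e)) (η • e + q • (w + κ1 • e)) = η ^ 2 * a + q ^ 2 * m := by
    intro η q
    constructor
    · rw [bf_add_right, bf_smul_right, bf_smul_right, ho]; ring
    · rw [bf_add_left, bf_add_right, bf_add_right]
      simp only [bf_smul_left, bf_smul_right, bf_comm A (w + κ1 • e) e, ho]
      ring
  have hpt : ∀ η q t : ℝ, F + t • (η • e + q • (w + κ1 • e)) =
      F + ((t * (η + κ1 * q)) • e + (t * q) • w) := fun η q t => by module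
  have lim : ∀ η q : ℝ, Tendsto (fun i => (η + κ1 * q + 1 - κ i * q) *
      (L + y i - x i * (η + κ1 * q) + κ' i * (x i * q)) / q ^ 2) l (𝓝 ((1 + η) * L / q ^ 2)) := by
    intro η q
    have := (((tendsto_const_nhds (x := η + κ1 * q + 1)).sub (hκ.mul_const q)).mul
      ((((tendsto_const_nhds (x := L)).add hy).sub (x0.mul_const (η + κ1 * q))).add
        (hκ'.mul (x0.mul_const q)))).div_const (q ^ 2)
    refine this.congr' (Eventually.of_forall fun _ => rfl) |>.trans ?_
    rw [show (η + κ1 * q + 1 - κ1 * q) * (L + 0 - 0 * (η + κ1 * q) + κ2 * (0 * q)) / q ^ 2 =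
      (1 + η) * L / q ^ 2 by ring]
  obtain ⟨q0, q0p, hq0⟩ : ∃ q0 : ℝ, 0 < q0 ∧ q0 ^ 2 * m = 4 * a :=
    ⟨√(4 * a / m), Real.sqrt_pos.2 (by positivity), by
      rw [Real.sq_sqrt (by positivity)]; field_simp⟩
  have hlim : L * m / (4 * a) = L / q0 ^ 2 := by rw [← hq0]; field_simp
  rw [hlim]
  refine tendsto_order.2 ⟨fun c hc => ?_, fun c hc => ?_⟩
  · obtain ⟨η, η0, -, hη⟩ := exists_eta (f := fun η => c * (q0 * (1 + η)) ^ 2) (g := fun _ => L)
      (by fun_prop) (by fun_prop) (by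
        rw [lt_div_iff₀ (by positivity)] at hc; simpa using hc)
    set q := q0 * (1 + η) with hq
    have qp : 0 < q := by positivity
    have b1 : 4 * bf A (-e) (-e) < bf A ((0 : ℝ) • e + q • (w + κ1 • e))
        ((0 : ℝ) • e + q • (w + κ1 • e)) := by
      rw [(hz 0 q).2, bf_neg_left, bf_neg_right, neg_neg]
      have : q ^ 2 * m = 4 * a * (1 + η) ^ 2 := by rw [hq, ← hq0]; ring
      nlinarith [mul_pos ha η0, mul_pos ha (mul_pos η0 η0)]
    filter_upwards [hx.eventually (h.double_ge hF hA (neg_ne_zero.2 he) b1), xp, hrep,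
      hx.eventually ((tendsto_ray F ((0 : ℝ) • e + q • (w + κ1 • e))).eventually
        (h.isOpen.mem_nhds hFU)),
      (lim 0 q).eventually (lt_mem_nhds (show c < (1 + 0) * L / q ^ 2 by
        rw [lt_div_iff₀ (by positivity)]; linarith))] with i a1 a2 a3 a4 a5
    have a6 : d F' F ≤ d F' (F + x i • ((0 : ℝ) • e + q • (w + κ1 • e))) := by
      by_contra hcon
      have := (hdesc _).1 ⟨x i, a2, a4, not_le.1 hcon⟩
      rw [(hz 0 q).1] at this
      linarith
    rw [hpt] at a1 a4 a6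
    rw [h.symm _ hFU' _ hFU] at a6
    have a7 := (a3 _ _ a4).2 (by linarith)
    rw [lt_div_iff₀ (by positivity)] at a5
    have a8 : c * q ^ 2 * x i < Γ i * x i * q ^ 2 * x i := by
      have := mul_lt_mul_of_pos_right a5 a2
      nlinarith
    exact lt_of_mul_lt_mul_right (lt_of_mul_lt_mul_right a8 a2.le) (by positivity)
  · obtain ⟨η, η0, η1, hη⟩ := exists_eta (f := fun η => (1 + η) * L)
      (g := fun η => c * (q0 * (1 - η)) ^ 2) (by fun_prop) (by fun_prop) (by
        rw [gt_iff_lt, div_lt_iff₀ (by positivity)] at hc; simpa using hc)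
    set q := q0 * (1 - η) with hq
    have qp : 0 < q := mul_pos q0p (by linarith)
    have b1 : bf A (η • e + q • (w + κ1 • e)) (η • e + q • (w + κ1 • e)) < 4 * bf A (-e) (-e) := by
      rw [(hz η q).2, bf_neg_left, bf_neg_right, neg_neg]
      have : q ^ 2 * m = 4 * a * (1 - η) ^ 2 := by rw [hq, ← hq0]; ring
      have g : η ^ 2 + 4 * (1 - η) ^ 2 < 4 := by nlinarith
      nlinarith [mul_lt_mul_of_pos_left g ha]
    obtain ⟨t, t0, ht⟩ := (hdesc (η • e + q • (w + κ1 • e))).2 (by rw [(hz η q).1]; positivity)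
    filter_upwards [hx.eventually (h.double_le hF hA (neg_ne_zero.2 he) b1), xp, hrep,
      x0.eventually (ge_mem_nhds t0),
      (lim η q).eventually (gt_mem_nhds (show (1 + η) * L / q ^ 2 < c by
        rw [div_lt_iff₀ (by positivity)]; linarith))] with i a1 a2 a3 a4 a5
    obtain ⟨a6, a7⟩ := h.desc_mono hF' hF hne a2 a4 ht
    rw [hpt] at a1 a6 a7
    rw [h.symm _ hFU' _ hFU] at a7
    have a8 := (a3 _ _ a6).1 (by linarith)
    rw [div_lt_iff₀ (by positivity)] at a5
    have a9 : Γ i * x i * q ^ 2 * x i < c * q ^ 2 * x i := by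
      have := mul_lt_mul_of_pos_right a5 a2
      nlinarith
    exact lt_of_mul_lt_mul_right (lt_of_mul_lt_mul_right a9 a2.le) (by positivity)

end Pool.Agent.Lib.MP_deb346_gt
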