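import Pool.Agent.Lib.MP_deb346_gt.Iso

set_option autoImplicit false

open Set Filter Topology

namespace Pool.Agent.Lib.MP_deb346_gt

variable {U V : Set (ℝ × ℝ)} {d : ℝ × ℝ → ℝ × ℝ → ℝ} {ε ρ : ℝ}

lemma tendsto_ray (P u : ℝ × ℝ) : Tendsto (fun x : ℝ => P + x • u) (𝓝[>] 0) (𝓝 P) := by
  have hc : Continuous fun x : ℝ => P + x • u := by fun_prop
  have := hc.tendsto 0
  simp only [zero_smul, add_zero] at this
  exact this.mono_left nhdsWithin_le_nhds

lemma tendsto_ray0 (u : ℝ × ℝ) : Tendsto (fun x : ℝ => x • u) (𝓝[>] 0) (𝓝 0) := by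
  simpa using tendsto_ray 0 u

lemma Good.iso_ray (h : Good U d ε V ρ) {P : ℝ × ℝ} (hP : P ∈ V) {A : ℝ × ℝ × ℝ}
    (hA : Conf U d V P A) {η : ℝ} (hη : 0 < η) (u : ℝ × ℝ) {v w : ℝ × ℝ} (hw : w ≠ 0)
    (hvw : (1 + η) * bf A v v ≤ bf A w w) :
    ∀ᶠ x : ℝ in 𝓝[>] 0, d (P + x • u) (P + x • u + x • v) ≤ d (P + x • u) (P + x • u + x • w) := by
  filter_upwards [((tendsto_ray P u).prodMk_nhds (tendsto_ray0 w)).eventually (h.iso hP hA hη),
    self_mem_nhdsWithin] with x h1 hx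
  have x0 : (0 : ℝ) < x := hx
  refine (h1 (smul_ne_zero x0.ne' hw) (x • v) ?_).2
  simp only [bf_smul_left, bf_smul_right]
  nlinarith [mul_le_mul_of_nonneg_left hvw (mul_pos x0 x0).le]

lemma exists_eta {f g : ℝ → ℝ} (hf : Continuous f) (hg : Continuous g) (h : f 0 < g 0) :
    ∃ η : ℝ, 0 < η ∧ η < 1 ∧ f η < g η := by
  have e1 : ∀ᶠ η in 𝓝 (0 : ℝ), f η < g η := (hf.tendsto 0).eventually_lt (hg.tendsto 0) h
  obtain ⟨η, ⟨h1, h2⟩, h3⟩ := (((e1.and (gt_mem_nhds one_pos)).filter_mono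
    nhdsWithin_le_nhds).and (self_mem_nhdsWithin (s := Ioi (0 : ℝ)))).exists
  exact ⟨η, h3, h2, h1⟩

lemma Good.double_ge (h : Good U d ε V ρ) {P : ℝ × ℝ} (hP : P ∈ V) {A : ℝ × ℝ × ℝ}
    (hA : Conf U d V P A) {u z : ℝ × ℝ} (hu : u ≠ 0) (hz : 4 * bf A u u < bf A z z) :
    ∀ᶠ x : ℝ in 𝓝[>] 0, 2 * d P (P + x • u) ≤ d P (P + x • z) := by
  have hPU := h.sub hP
  have hau := hA.1 u hu
  obtain ⟨η, η0, -, hη⟩ := exists_eta (f := fun η => (1 + η) * ((2 + η) ^ 2 * bf A u u))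
    (g := fun _ => bf A z z) (by fun_prop) (by fun_prop) (by linarith)
  have hz0 : z ≠ 0 := by
    rintro rfl
    simp only [bf, Prod.fst_zero, Prod.snd_zero, mul_zero, add_zero] at hz hau
    linarith
  have e1 := h.iso_ray hP hA η0 u (v := -u) (w := (1 + η) • u) (smul_ne_zero (by linarith) hu) (by
    simp only [bf_smul_left, bf_smul_right, bf_neg_left, bf_neg_right, neg_neg]
    nlinarith [mul_pos η0 hau])
  have e2 := h.iso_ray hP hA η0 0 (v := (2 + η) • u) (w := z) hz0 (by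
    simp only [bf_smul_left, bf_smul_right]
    linarith)
  filter_upwards [e1, e2, (tendsto_ray P ((2 + η) • u)).eventually (h.isOpen.mem_nhds hPU),
    self_mem_nhdsWithin] with x a1 a2 a3 hx
  have x0 : (0 : ℝ) < x := hx
  have r1 : P + x • u + x • (-u) = P := by simp
  have r2 : P + x • u + x • (1 + η) • u = P + (x * (2 + η)) • u := by module
  have r3 : P + x • (2 + η) • u = P + (x * (2 + η)) • u := by module
  rw [r1, r2] at a1
  rw [smul_zero, add_zero, r3] at a2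
  rw [r3] at a3
  have hle : x ≤ x * (2 + η) := by nlinarith
  have a4 := h.addr x0.le hle hPU a3
  rw [h.symm _ (convex_ray h.convex x0.le hle hPU a3) _ hPU] at a1
  linarith

lemma Good.double_le (h : Good U d ε V ρ) {P : ℝ × ℝ} (hP : P ∈ V) {A : ℝ × ℝ × ℝ}
    (hA : Conf U d V P A) {u z : ℝ × ℝ} (hu : u ≠ 0) (hz : bf A z z < 4 * bf A u u) :
    ∀ᶠ x : ℝ in 𝓝[>] 0, d P (P + x • z) ≤ 2 * d P (P + x • u) := by
  have hPU := h.sub hP
  have hau := hA.1 u hu
  obtain ⟨η, η0, η1, hη⟩ := exists_eta (f := fun η => (1 + η) * bf A z z)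
    (g := fun η => (2 - η) ^ 2 * bf A u u) (by fun_prop) (by fun_prop) (by linarith)
  have e1 := h.iso_ray hP hA η0 u (v := (1 - η) • u) (w := -u) (neg_ne_zero.2 hu) (by
    simp only [bf_smul_left, bf_smul_right, bf_neg_left, bf_neg_right, neg_neg]
    have : (1 + η) * ((1 - η) * (1 - η)) ≤ 1 := by nlinarith [mul_pos η0 η0]
    nlinarith [mul_le_mul_of_nonneg_right this hau.le])
  have e2 := h.iso_ray hP hA η0 0 (v := z) (w := (2 - η) • u) (smul_ne_zero (by linarith) hu) (by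
    simp only [bf_smul_left, bf_smul_right]
    linarith)
  filter_upwards [e1, e2, (tendsto_ray P ((2 - η) • u)).eventually (h.isOpen.mem_nhds hPU),
    self_mem_nhdsWithin] with x a1 a2 a3 hx
  have x0 : (0 : ℝ) < x := hx
  have r1 : P + x • u + x • (-u) = P := by simp
  have r2 : P + x • u + x • (1 - η) • u = P + (x * (2 - η)) • u := by module
  have r3 : P + x • (2 - η) • u = P + (x * (2 - η)) • u := by module
  rw [r1, r2] at a1
  rw [smul_zero, add_zero, r3] at a2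
  rw [r3] at a3
  have hle : x ≤ x * (2 - η) := by nlinarith
  have a4 := h.addr x0.le hle hPU a3
  rw [h.symm _ (convex_ray h.convex x0.le hle hPU a3) _ hPU] at a1
  linarith

/-- a level curve which is an ellipse -/
structure Lev (U : Set (ℝ × ℝ)) (f : ℝ × ℝ → ℝ) (F : ℝ × ℝ) (c : ℝ)
    (S : ℝ × ℝ × ℝ) (b : ℝ × ℝ) : Prop where
  pd : PD S
  eq : ∀ v, (F + v ∈ U ∧ f (F + v) = c) ↔ bf S v v + 2 * dp b v = 1
  lt : ∀ v, (F + v ∈ U ∧ f (F + v) < c) ↔ bf S v v + 2 * dp b v < 1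

lemma exists_lev (hU : Convex ℝ U) {f : ℝ × ℝ → ℝ} (hf : ContinuousOn f U) {F : ℝ × ℝ}
    (hF : F ∈ U) {c : ℝ} (hc : f F < c)
    (hr : ∀ u : ℝ × ℝ, u ≠ 0 → ∃ T : ℝ, 0 < T ∧ F + T • u ∈ U ∧
      ∀ t, T ≤ t → F + t • u ∈ U → c < f (F + t • u))
    {k : Fin 6 → ℝ} (hk : k ≠ 0) (hq : ∀ X ∈ U, f X = c → qe k X = 0) :
    ∃ S b, Lev U f F c S b := by
  have ivt : ∀ (u : ℝ × ℝ) (r s : ℝ), r ≤ s → F + r • u ∈ U → F + s • u ∈ U → f (F + r • u) < c →
      c ≤ f (F + s • u) → ∃ t, r < t ∧ t ≤ s ∧ F + t • u ∈ {X | X ∈ U ∧ f X = c} := by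
    intro u r s hrs h1 h2 h3 h4
    have hc : ContinuousOn (fun t : ℝ => f (F + t • u)) (Icc r s) :=
      hf.comp (by fun_prop) fun t ht => convex_line hU ht.1 ht.2 h1 h2
    obtain ⟨t, ht, e⟩ := intermediate_value_Icc hrs hc ⟨h3.le, h4⟩
    refine ⟨t, lt_of_le_of_ne ht.1 fun h5 => ?_, ht.2, convex_line hU ht.1 ht.2 h1 h2, e⟩
    rw [← h5] at e
    exact h3.ne e
  have h0 : ∀ u : ℝ × ℝ, F + (0 : ℝ) • u = F := fun u => by simp
  have hray : ∀ u : ℝ × ℝ, u ≠ 0 → ∃ t : ℝ, 0 < t ∧ F + t • u ∈ {X | X ∈ U ∧ f X = c} := by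
    intro u hu
    obtain ⟨T, hT, hTU, h3⟩ := hr u hu
    obtain ⟨t, a1, -, a2⟩ := ivt u 0 T hT.le (by rwa [h0]) hTU (by rwa [h0]) (h3 T le_rfl hTU).le
    exact ⟨t, a1, a2⟩
  obtain ⟨S, b, hpd, hiff⟩ := conic_ray hk (fun X hX => hq X hX.1 hX.2) hray
  have hfac : ∀ (v : ℝ × ℝ) (t : ℝ), F + t • v ∈ {X | X ∈ U ∧ f X = c} →
      t * (bf S v v + 2 * dp b v - 1) = (1 - t) * (bf S v v * t + 1) := fun v t ht => by
    have := (hiff _).1 ht
    rw [bf_smul_left, bf_smul_right, dp_smul_right] at this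
    linear_combination this
  refine ⟨S, b, hpd, hiff, fun v => ?_⟩
  by_cases hv : v = 0
  · simp [hv, hF, hc, bf, dp]
  have hα := hpd v hv
  have h1 : F + (1 : ℝ) • v = F + v := by simp
  constructor
  · rintro ⟨a1, a2⟩
    obtain ⟨T, hT, hTU, h3⟩ := hr v hv
    have hT1 : 1 ≤ T := by
      by_contra hcon
      have := h3 1 (not_le.1 hcon).le (by rwa [h1])
      rw [h1] at this
      linarith
    obtain ⟨t, b1, -, b2⟩ := ivt v 1 T hT1 (by rwa [h1]) hTU (by rwa [h1]) (h3 T le_rfl hTU).le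
    have b3 := hfac v t b2
    have b4 : (1 - t) * (bf S v v * t + 1) < 0 :=
      mul_neg_of_neg_of_pos (by linarith) (by have : 0 < t := by linarith
                                              positivity)
    by_contra hcon
    have : 0 ≤ t * (bf S v v + 2 * dp b v - 1) := mul_nonneg (by linarith) (by linarith)
    linarith
  · intro a1
    have key : ∀ t : ℝ, 0 < t → F + t • v ∈ {X | X ∈ U ∧ f X = c} → 1 < t := fun t ht hm => by
      have b3 := hfac v t hm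
      have b4 : t * (bf S v v + 2 * dp b v - 1) < 0 := mul_neg_of_pos_of_neg ht (by linarith)
      by_contra hcon
      have : 0 ≤ (1 - t) * (bf S v v * t + 1) := mul_nonneg (by linarith) (by positivity)
      linarith
    obtain ⟨t, ht, hm⟩ := hray v hv
    have b1 := convex_ray hU zero_le_one (key t ht hm).le hF hm.1
    refine ⟨by rwa [h1] at b1, ?_⟩
    by_contra hcon
    obtain ⟨t', c1, c2, c3⟩ := ivt v 0 1 zero_le_one (by rwa [h0]) b1 (by rwa [h0])
      (by rw [h1]; exact not_lt.1 hcon)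
    linarith [key t' c1 c3]

lemma Good.exists_ell (h : Good U d ε V ρ) {F F' : ℝ × ℝ} (hF : F ∈ V) (hF' : F' ∈ V)
    (hne : F ≠ F') {s : ℝ} (hs : 0 < s) (hsρ : s < ρ / 2) :
    ∃ S b, Lev U (fun X => d F X + d F' X) F (d F F' + 2 * s) S b := by
  have hFU := h.sub hF
  have hFU' := h.sub hF'
  have hsm := h.small F hF F' hF'
  obtain ⟨k, hk, hq⟩ := h.conic F hFU F' hFU' hne (d F F' / 2 + s) (by linarith)
    (by linarith [h.rlt])
  refine exists_lev h.convex (fun X hX => ?_) hFU ?_ (fun u hu => ?_) hk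
    fun X hX e => hq X hX (by linarith)
  · exact ((h.tendsto hFU hX tendsto_const_nhds tendsto_id).add
      (h.tendsto hFU' hX tendsto_const_nhds tendsto_id)).mono_left nhdsWithin_le_nhds
  · simp only [h.self hFU, h.symm F' hFU' F hFU]; linarith
  · obtain ⟨T, hT, hTU, h3⟩ := h.reach F hF u hu
    refine ⟨T, hT, hTU, fun t ht htU => ?_⟩
    have a1 := h.ray_le hT.le ht hFU htU
    have a2 := h.nonneg hFU' htU
    linarith [h.rpos]

lemma tangent {f : ℝ × ℝ → ℝ} {F v u : ℝ × ℝ} {c t : ℝ}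
    {S : ℝ × ℝ × ℝ} {b : ℝ × ℝ} (hL : Lev U f F c S b) (hv : bf S v v + 2 * dp b v = 1)
    {A : ℝ × ℝ × ℝ} (hA : Conf U d V (F + v) A) (hu : u ≠ 0) (ht : 0 < t)
    (htV : F + v - t • u ∈ V)
    (hin : ∀ Y ∈ U, f Y < c → d (F + v - t • u) Y < d (F + v - t • u) (F + v))
    {z : ℝ × ℝ} (hz : bf A u z = 0) : bf S v z + dp b z = 0 := by
  have e : ∀ z, dp (av S v + b) z = bf S v z + dp b z := fun z => by
    simp only [dp, av, bf, Prod.fst_add, Prod.snd_add]; ring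
  have hn : av S v + b ≠ 0 := dp_ne (v := v) (by rw [e]; linarith [hL.pd.nonneg v])
  obtain ⟨κ, -, hκ⟩ := half_le (n' := av A u) hn fun z hz => by
    rw [e] at hz
    rw [dp_av]
    have hzz := hL.pd.nonneg z
    have hp : 0 < bf S z z + 1 := by linarith
    have key : bf S (v + (-(bf S v z + dp b z) / (bf S z z + 1)) • z)
        (v + (-(bf S v z + dp b z) / (bf S z z + 1)) • z) +
        2 * dp b (v + (-(bf S v z + dp b z) / (bf S z z + 1)) • z) =
        bf S v v + 2 * dp b v -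
          (bf S v z + dp b z) ^ 2 * (bf S z z + 2) / (bf S z z + 1) ^ 2 := by
      simp only [bf_add_left, bf_add_right, bf_smul_left, bf_smul_right, dp_add_right,
        dp_smul_right, bf_comm S z v]
      field_simp; ring
    have hne : bf S v z + dp b z ≠ 0 := hz.ne
    have hpos : 0 < (bf S v z + dp b z) ^ 2 * (bf S z z + 2) / (bf S z z + 1) ^ 2 := by positivity
    obtain ⟨a1, a2⟩ := (hL.lt _).2 (show _ < (1 : ℝ) by rw [key]; linarith)
    rw [← add_assoc] at a1 a2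
    exact ((hA.2.2 u hu z).1 ⟨t, ht, htV, _, div_pos (by linarith) hp, a1, hin _ a1 a2⟩).le
  have h1 := hA.1 u hu
  rw [← dp_av, hκ, dp_smul_left] at h1 hz
  rw [← e]
  refine (mul_eq_zero.1 hz).resolve_left ?_
  rintro rfl
  simp at h1

lemma conic_repr {α β γ b1 b2 x y κ κ' : ℝ} (hα : 0 < α) (hx : 0 < x) (hy : 0 < y)
    (e1 : α * x ^ 2 - 2 * b1 * x = 1) (e2 : α * y ^ 2 + 2 * b1 * y = 1)
    (e3 : κ * (b1 - α * x) + b2 - β * x = 0) (e4 : κ' * (b1 + α * y) + b2 + β * y = 0) (p q : ℝ) :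
    α * p ^ 2 + 2 * β * p * q + γ * q ^ 2 + 2 * b1 * p + 2 * b2 * q - 1 =
      α * ((γ / α - κ * κ') * q ^ 2 - (p + x - κ * q) * (y - p + κ' * q)) := by
  have hxy : x + y ≠ 0 := by positivity
  have f1 : b1 = α * (x - y) / 2 := by
    apply mul_left_cancel₀ hxy
    linear_combination (e2 - e1) / 2
  subst f1
  have f2 : α * x * y = 1 := by linear_combination e1
  have f3 : β = -α * (κ + κ') / 2 := by
    apply mul_left_cancel₀ hxy
    linear_combination e4 - e3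
  subst f3
  have f4 : b2 = α * (κ * y - κ' * x) / 2 := by linear_combination e3
  subst f4
  have := hα.ne'
  field_simp
  linear_combination f2

end Pool.Agent.Lib.MP_deb346_gt
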